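import Pool.Agent.Lib.MP_f3c5e4_al.Q2.Defs

/-! # Counting primitive elements and supports -/

set_option autoImplicit false

namespace Pool.Agent.Lib.MP_f3c5e4_al

namespace Q2

open LaurentPolynomial Polynomial

noncomputable section

/-- PROOF. `(GaloisField 2 M)ˣ` is cyclic of order `2 ^ M - 1` (`GaloisField.card`, `Nat.card_units`);
`IsCyclic.card_orderOf_eq_totient`. See `exists_field` in Arith.lean for the cardinality. -/
theorem card_prim (M : ℕ) (hM : M ≠ 0) :
    ∃ P : Finset (GaloisField 2 M)ˣ, (∀ a, a ∈ P ↔ orderOf a = 2 ^ M - 1) ∧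
      P.card = Nat.totient (2 ^ M - 1) := by
  classical
  have : Fintype (GaloisField 2 M)ˣ := Fintype.ofFinite _
  have hcard : Fintype.card (GaloisField 2 M)ˣ = 2 ^ M - 1 := by
    rw [← Nat.card_eq_fintype_card, Nat.card_units, GaloisField.card 2 M hM]
  refine ⟨Finset.univ.filter fun a => orderOf a = 2 ^ M - 1, fun a => by simp, ?_⟩
  exact IsCyclic.card_orderOf_eq_totient (α := (GaloisField 2 M)ˣ) (d := 2 ^ M - 1)
    (by rw [hcard])

/-- PROOF. `h = toLaurent p * T (-N)` with `p.natDegree ≤ 2 N`; `p` is determined by its coefficients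
`0, ..., 2 N`. Take the image of `Finset.univ : Finset (Fin (2 * N + 1) → ZMod 2)` under
`c ↦ toLaurent (∑ i, C (c i) * X ^ i) * T (-N)`; `Finset.card_image_le`, `Fintype.card_fun`, `ZMod.card`. -/
theorem count_Su (N : ℕ) : ∃ U : Finset R, (∀ h, Su N h → h ∈ U) ∧ U.card ≤ 2 ^ (2 * N + 1) := by
  classical
  refine ⟨Finset.univ.image fun c : Fin (2 * N + 1) → ZMod 2 =>
    toLaurent (∑ i, Polynomial.C (c i) * X ^ (i : ℕ)) * T (-(N : ℤ)), ?_, ?_⟩
  · rintro h ⟨p, hp, hph⟩
    refine Finset.mem_image.2 ⟨fun i => p.coeff i, Finset.mem_univ _, ?_⟩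
    have h1 : (∑ i : Fin (2 * N + 1), Polynomial.C (p.coeff i) * X ^ (i : ℕ)) = p := by
      conv_rhs => rw [p.as_sum_range_C_mul_X_pow' (Nat.lt_succ_of_le hp)]
      rw [Finset.sum_range]
    show toLaurent (∑ i : Fin (2 * N + 1), Polynomial.C (p.coeff i) * X ^ (i : ℕ)) *
      T (-(N : ℤ)) = h
    rw [h1, hph, mul_assoc, ← T_add, add_neg_cancel, T_zero, mul_one]
  · refine (Finset.card_image_le).trans ?_
    rw [Finset.card_univ, Fintype.card_fun, ZMod.card, Fintype.card_fin]

end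

end Q2

end Pool.Agent.Lib.MP_f3c5e4_al
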