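import Pool.Agent.Lib.MP_f3c5e4_al.Q2.Defs

/-! # Counting roots -/

set_option autoImplicit false

namespace Pool.Agent.Lib.MP_f3c5e4_al

namespace Q2

open LaurentPolynomial Polynomial

noncomputable section

/-- PROOF. As `exists_ev_ne` in Depth.lean: `p` is not zero, its image in `F[X]` neither, and every
`a ∈ A` is a root of it; `Polynomial.eq_zero_of_natDegree_lt_card_of_eval_eq_zero'`. -/
theorem roots_le {F : Type} [Field F] [Algebra (ZMod 2) F] {f : R} (hf : f ≠ 0) {n d : ℕ}
    {p : (ZMod 2)[X]} (hp : p.natDegree ≤ d) (hp' : toLaurent p = f * T n) (A : Finset Fˣ)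
    (hA : ∀ a ∈ A, ev a f = 0) : A.card ≤ d := by
  classical
  by_contra hcon
  push Not at hcon
  have hp0 : p ≠ 0 := by
    intro h
    rw [h, map_zero] at hp'
    have h1 : f * T n * T (-n) = 0 := by rw [← hp', zero_mul]
    rw [mul_assoc, ← T_add] at h1
    simp at h1
    exact hf h1
  have hinj : Function.Injective (algebraMap (ZMod 2) F) := (algebraMap (ZMod 2) F).injective
  have h1 : p.map (algebraMap (ZMod 2) F) = 0 := by
    apply Polynomial.eq_zero_of_natDegree_lt_card_of_eval_eq_zero' _ (A.image (fun a : Fˣ => (a : F)))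
    · intro x hx
      obtain ⟨a, ha, rfl⟩ := Finset.mem_image.1 hx
      rw [Polynomial.eval_map, ← LaurentPolynomial.eval₂_toLaurent, hp', map_mul]
      have := hA a ha
      rw [ev] at this
      rw [this, zero_mul]
    · rw [Finset.card_image_of_injective _ Units.val_injective]
      exact lt_of_le_of_lt (Polynomial.natDegree_map_le.trans hp) hcon
  exact hp0 ((Polynomial.map_eq_zero_iff hinj).1 h1)

/-- PROOF. `A ⊆ ⋃ r ∈ V, {a ∈ A | ev a (h - r) = 0}` (`V` is a finite set: `Set.Finite.toFinset` or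
`Fintype.ofFinite`, `Finset.card_biUnion_le`). For `r ∈ V`: `h - r ≠ 0`, `h * T N = toLaurent p` with
`p.natDegree ≤ 2 N`, `r = toLaurent w` with `w.natDegree ≤ D`, so
`(h - r) * T N = toLaurent (p - w * X ^ N)` and the degree is at most `max (2 N) (D + N) ≤ 2 N + D`;
`roots_le`. -/
theorem bad_le {F : Type} [Field F] [Algebra (ZMod 2) F] {N D : ℕ} (V : Submodule (ZMod 2) R)
    [Finite V] (hD : ∀ r ∈ V, ∃ w : (ZMod 2)[X], w.natDegree ≤ D ∧ toLaurent w = r)
    {h : R} (hh : Su N h) (hV : h ∉ V) (A : Finset Fˣ)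
    (hA : ∀ a ∈ A, ∃ r ∈ V, ev a h = ev a r) : A.card ≤ Nat.card V * (2 * N + D) := by
  classical
  have : Fintype V := Fintype.ofFinite V
  have hsub : A ⊆ (Finset.univ : Finset V).biUnion
      (fun r => A.filter (fun a => ev a (h - (r : R)) = 0)) := by
    intro a ha
    obtain ⟨r, hr, hr'⟩ := hA a ha
    rw [Finset.mem_biUnion]
    refine ⟨⟨r, hr⟩, Finset.mem_univ _, ?_⟩
    rw [Finset.mem_filter]
    refine ⟨ha, ?_⟩
    rw [map_sub, hr', sub_self]
  refine (Finset.card_le_card hsub).trans (Finset.card_biUnion_le.trans ?_)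
  refine (Finset.sum_le_card_nsmul _ _ (2 * N + D) ?_).trans ?_
  · intro r _
    obtain ⟨p, hp, hp'⟩ := hh
    obtain ⟨w, hw, hw'⟩ := hD r.1 r.2
    have hne : h - (r : R) ≠ 0 := by
      intro h0
      apply hV
      rw [sub_eq_zero.1 h0]
      exact r.2
    refine roots_le hne (n := N) (p := p - w * X ^ N) ?_ ?_ _ (fun a ha => (Finset.mem_filter.1 ha).2)
    · refine (Polynomial.natDegree_sub_le _ _).trans (max_le (hp.trans (by omega)) ?_)
      refine Polynomial.natDegree_mul_le.trans ?_
      rw [Polynomial.natDegree_X_pow]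
      omega
    · rw [map_sub, hp', map_mul, hw', Polynomial.toLaurent_X_pow]
      ring
  · rw [Finset.card_univ, Nat.card_eq_fintype_card, smul_eq_mul]

end

end Q2

end Pool.Agent.Lib.MP_f3c5e4_al
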