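import Pool.Agent.Lib.MP_f3c5e4_al.Q2.Defs

/-! # The upper specification -/

set_option autoImplicit false

namespace Pool.Agent.Lib.MP_f3c5e4_al

namespace Q2

open LaurentPolynomial Polynomial

noncomputable section

/-- PROOF. `Submodule.span_mono`. -/
theorem W_le_Call (Ψ : ℕ → (ZMod 2)[X]) (i : ℕ) : W Ψ i ≤ Call Ψ := by
  refine Submodule.span_mono ?_
  rintro r ⟨l, -, k, hk, rfl⟩
  exact ⟨l, k, hk, rfl⟩

/-- Scalars of the field with two elements are `0` and `1`. -/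
private theorem zmod_two_cases (s : ZMod 2) : s = 0 ∨ s = 1 := by
  revert s; decide

/-- PROOF. `Submodule.span_induction` on `c`. Generator `toLaurent (Phi Ψ l * X ^ k)`: if `l ≤ i` it lies in
`W Ψ (i + 1)`; if `i < l`, then `Ψ i ∣ Phi Ψ l` (`Finset.dvd_prod_of_mem`), so `ev a` of it is `0`; take
`r = 0`. Sums and scalar multiples (scalars `0`, `1`) are clear. -/
theorem ev_Call (Ψ : ℕ → (ZMod 2)[X]) (i : ℕ) {F : Type} [Field F] [Algebra (ZMod 2) F] (a : Fˣ)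
    (ha : ev a (toLaurent (Ψ i)) = 0) (c : R) (hc : c ∈ Call Ψ) :
    ∃ r ∈ W Ψ (i + 1), ev a c = ev a r := by
  unfold Call at hc
  induction hc using Submodule.span_induction with
  | mem x hx =>
    obtain ⟨l, k, hk, rfl⟩ := hx
    rcases Nat.lt_or_ge i l with h | h
    · refine ⟨0, Submodule.zero_mem _, ?_⟩
      obtain ⟨q, hq⟩ : Ψ i ∣ Phi Ψ l := Finset.dvd_prod_of_mem _ (Finset.mem_range.2 h)
      rw [hq, map_mul, map_mul, map_mul, map_mul, ha, zero_mul, zero_mul, map_zero]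
    · exact ⟨_, Submodule.subset_span ⟨l, Nat.lt_succ_of_le h, k, hk, rfl⟩, rfl⟩
  | zero => exact ⟨0, Submodule.zero_mem _, rfl⟩
  | add x y _ _ hx hy =>
    obtain ⟨r, hr, hxr⟩ := hx
    obtain ⟨s, hs, hys⟩ := hy
    exact ⟨r + s, Submodule.add_mem _ hr hs, by rw [map_add, map_add, hxr, hys]⟩
  | smul s x _ hx =>
    obtain ⟨r, hr, hxr⟩ := hx
    rcases zmod_two_cases s with rfl | rfl
    · exact ⟨0, Submodule.zero_mem _, by rw [zero_smul]⟩
    · exact ⟨r, hr, by rw [one_smul, hxr]⟩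

/-- A functional separating a vector from a subspace. PROOF. `ev a` is `ZMod 2`-linear
(`AddMonoidHom.toZModLinearMap`), let `U` be the image of `V` under it, `ev a h ∉ U`;
`Submodule.exists_le_ker_of_notMem` (or a linear functional on `F ⧸ U` not vanishing at the class of
`ev a h`: `exists_dual_forall_apply_eq_zero_iff`, `Module.forall_dual_apply_eq_zero_iff`). -/
theorem exists_mu {F : Type} [Field F] [Algebra (ZMod 2) F] (a : Fˣ) (V : Submodule (ZMod 2) R) (h : R)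
    (hV : ∀ r ∈ V, ev a h ≠ ev a r) :
    ∃ μ : F →ₗ[ZMod 2] ZMod 2, (∀ r ∈ V, μ (ev a r) = 0) ∧ μ (ev a h) ≠ 0 := by
  let U : Submodule (ZMod 2) F :=
    { carrier := {x | ∃ r ∈ V, ev a r = x}
      zero_mem' := ⟨0, V.zero_mem, map_zero _⟩
      add_mem' := by
        rintro x y ⟨r, hr, rfl⟩ ⟨s, hs, rfl⟩
        exact ⟨r + s, V.add_mem hr hs, map_add _ _ _⟩
      smul_mem' := by
        rintro c x ⟨r, hr, rfl⟩
        rcases zmod_two_cases c with rfl | rfl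
        · exact ⟨0, V.zero_mem, by rw [zero_smul, map_zero]⟩
        · exact ⟨r, hr, by rw [one_smul]⟩ }
  have hU : ev a h ∉ U := by
    rintro ⟨r, hr, hrh⟩
    exact hV r hr hrh.symm
  obtain ⟨μ, hμ, hle⟩ := Submodule.exists_le_ker_of_notMem hU
  exact ⟨μ, fun r hr => by
    have := hle (show ev a r ∈ U from ⟨r, hr, rfl⟩)
    exact this, hμ⟩

/-- PROOF. `h ∉ W Ψ (i + 1)` by `W_le_Call`; `Good.sep`, `exists_mu` for `W Ψ (i + 1)`, `ev_Call`. -/
theorem spec_upper (Ψ : ℕ → (ZMod 2)[X]) (n m : ℕ → ℕ) (K : ℕ)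
    (hg : ∀ i, Good (m i) (n i) K (W Ψ (i + 1)) (Ψ i)) (i : ℕ) (h : R) (hh : Su (n i) h)
    (hC : h ∉ Call Ψ) : ∃ (a : (GaloisField 2 (m i))ˣ)
      (μ : GaloisField 2 (m i) →ₗ[ZMod 2] ZMod 2), (∀ c ∈ Call Ψ, μ (ev a c) = 0) ∧ μ (ev a h) ≠ 0 := by
  have hW : h ∉ W Ψ (i + 1) := fun hw => hC (W_le_Call Ψ (i + 1) hw)
  obtain ⟨a, ha, hsep⟩ := (hg i).sep h hh hW
  obtain ⟨μ, hμ, hμh⟩ := exists_mu a (W Ψ (i + 1)) h hsep
  refine ⟨a, μ, fun c hc => ?_, hμh⟩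
  obtain ⟨r, hr, hcr⟩ := ev_Call Ψ i a ha c hc
  rw [hcr]
  exact hμ r hr

end

end Q2

end Pool.Agent.Lib.MP_f3c5e4_al
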