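import Pool.Agent.Lib.MP_f3c5e4_al.Q2.Defs

/-! # The element of the lower specification -/

set_option autoImplicit false

namespace Pool.Agent.Lib.MP_f3c5e4_al

namespace Q2

open LaurentPolynomial Polynomial

noncomputable section

/-- PROOF. By `Submodule.span_induction` every element of `Call Ψ` is `toLaurent w` for a polynomial `w`. If
`T (-1) * toLaurent (Phi Ψ j) = toLaurent w`, then `toLaurent (Phi Ψ j) = toLaurent (X * w)`, so
`Phi Ψ j = X * w` (`Polynomial.toLaurent_injective`) has `coeff 0 = 0`; but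
`coeff (Phi Ψ j) 0 = ∏ coeff (Ψ l) 0 ≠ 0` (`Polynomial.coeff_zero_prod` or induction,
`Polynomial.mul_coeff_zero`). -/
theorem e_notMem (Ψ : ℕ → (ZMod 2)[X]) (h0 : ∀ l, (Ψ l).coeff 0 ≠ 0) (j : ℕ) :
    T (-1) * toLaurent (Phi Ψ j) ∉ Call Ψ := by
  intro hmem
  have hle : Call Ψ ≤ LinearMap.range (toLaurentAlg (R := ZMod 2)).toLinearMap := by
    unfold Call
    rw [Submodule.span_le]
    rintro r ⟨l, k, _, rfl⟩
    exact ⟨Phi Ψ l * X ^ k, rfl⟩
  obtain ⟨w, hw⟩ := hle hmem
  have hw' : toLaurent w = T (-1) * toLaurent (Phi Ψ j) := hw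
  have h1 : toLaurent (X * w) = toLaurent (Phi Ψ j) := by
    rw [map_mul, toLaurent_X, hw', ← mul_assoc, ← T_add, add_neg_cancel, T_zero, one_mul]
  have h2 := toLaurent_injective h1
  have h3 : (Phi Ψ j).coeff 0 ≠ 0 := by
    unfold Phi
    rw [coeff_zero_eq_eval_zero, eval_prod, Finset.prod_ne_zero_iff]
    intro l _
    rw [← coeff_zero_eq_eval_zero]
    exact h0 l
  apply h3
  rw [← h2, coeff_X_mul_zero]

/-- PROOF. `t` has finite positive order `d = ordT I` in the finite ring `R ⧸ I`, so every `r : R` is congruent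
modulo `I` to an element of the span of the `T k`, `0 ≤ k < d` (`LaurentPolynomial.induction_on'`;
`T n - T (n % d) ∈ I`). If `d ≤ kap l`, then `toLaurent (Phi Ψ l) * r` is congruent modulo `I` to an element of
the span of `toLaurent (Phi Ψ l * X ^ k)`, `k < kap l`, which lies in `Call Ψ`. -/
theorem mul_mem_sup (Ψ : ℕ → (ZMod 2)[X]) (I : Ideal R) [Finite (R ⧸ I)] (l : ℕ)
    (hl : ordT I ≤ kap l) (r : R) : ∃ c ∈ Call Ψ, toLaurent (Phi Ψ l) * r - c ∈ I := by
  have hd : 0 < ordT I := by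
    unfold ordT
    exact orderOf_pos _
  set x := Units.map (Ideal.Quotient.mk I).toMonoidHom Tu with hx
  have hxd : orderOf x = ordT I := rfl
  have hxn : ∀ n : ℤ, Ideal.Quotient.mk I (T n) = ((x ^ n : (R ⧸ I)ˣ) : R ⧸ I) := by
    intro n
    rw [hx, ← map_zpow, Units.coe_map, Tu_zpow]
    rfl
  induction r using LaurentPolynomial.induction_on' with
  | add p q hp hq =>
    obtain ⟨c, hc, h1⟩ := hp
    obtain ⟨c', hc', h2⟩ := hq
    refine ⟨c + c', (Call Ψ).add_mem hc hc', ?_⟩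
    have h3 : toLaurent (Phi Ψ l) * (p + q) - (c + c') =
        (toLaurent (Phi Ψ l) * p - c) + (toLaurent (Phi Ψ l) * q - c') := by ring
    rw [h3]
    exact I.add_mem h1 h2
  | C_mul_T n a =>
    obtain ⟨k, hk⟩ : ∃ k : ℕ, (k : ℤ) = n % (ordT I : ℤ) :=
      ⟨(n % (ordT I : ℤ)).toNat, Int.toNat_of_nonneg (Int.emod_nonneg _ (by omega))⟩
    have hkl : k < kap l := by
      have h1 : n % (ordT I : ℤ) < ordT I := Int.emod_lt_of_pos _ (by omega)
      omega
    have hI : T n - T (k : ℤ) ∈ I := by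
      rw [← Ideal.Quotient.mk_eq_mk_iff_sub_mem, hxn, hxn, hk, ← hxd, zpow_mod_orderOf]
    refine ⟨a • toLaurent (Phi Ψ l * X ^ k), ?_, ?_⟩
    · exact (Call Ψ).smul_mem a (Submodule.subset_span ⟨l, k, hkl, rfl⟩)
    · have h3 : toLaurent (Phi Ψ l) * (LaurentPolynomial.C a * T n) -
          a • toLaurent (Phi Ψ l * X ^ k) =
          (toLaurent (Phi Ψ l) * LaurentPolynomial.C a) * (T n - T (k : ℤ)) := by
        rw [LaurentPolynomial.smul_eq_C_mul, map_mul, toLaurent_X_pow]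
        ring
      rw [h3]
      exact I.mul_mem_left _ hI

end

end Q2

end Pool.Agent.Lib.MP_f3c5e4_al
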