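import Pool.Agent.Lib.MP_f3c5e4_al.Q2.SeqA
import Pool.Agent.Lib.MP_f3c5e4_al.Q2.CombB

/-! # The lower specification -/

set_option autoImplicit false

namespace Pool.Agent.Lib.MP_f3c5e4_al

namespace Q2

open LaurentPolynomial Polynomial

noncomputable section

/-- PROOF. Induction on `l` from `j`: `1 = u + v * toLaurent (Ψ l)` with `u ∈ I`
(`Ideal.mem_span_singleton'`, `Submodule.mem_sup`); multiply by `toLaurent (Phi Ψ l)` and use
`Phi Ψ (l + 1) = Phi Ψ l * Ψ l` (`Finset.prod_range_succ`). -/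
theorem Phi_mem_sup (Ψ : ℕ → (ZMod 2)[X]) (I : Ideal R) (j : ℕ)
    (h : ∀ l, j ≤ l → I ⊔ Ideal.span {toLaurent (Ψ l)} = ⊤) (l : ℕ) (hl : j ≤ l) :
    ∃ r : R, toLaurent (Phi Ψ j) - toLaurent (Phi Ψ l) * r ∈ I := by
  induction l, hl using Nat.le_induction with
  | base => exact ⟨1, by rw [mul_one, sub_self]; exact I.zero_mem⟩
  | succ l hl ih =>
    obtain ⟨r, hr⟩ := ih
    have h1 : (1 : R) ∈ I ⊔ Ideal.span {toLaurent (Ψ l)} := by
      rw [h l hl]
      exact Submodule.mem_top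
    obtain ⟨u, hu, v, hv, huv⟩ := Submodule.mem_sup.1 h1
    obtain ⟨w, rfl⟩ := Ideal.mem_span_singleton'.1 hv
    refine ⟨w * r, ?_⟩
    have e1 : toLaurent (Phi Ψ (l + 1)) = toLaurent (Phi Ψ l) * toLaurent (Ψ l) := by
      rw [Phi, Finset.prod_range_succ, map_mul]
      rfl
    have e2 : toLaurent (Phi Ψ j) - toLaurent (Phi Ψ (l + 1)) * (w * r) =
        (toLaurent (Phi Ψ j) - toLaurent (Phi Ψ l) * r) + (toLaurent (Phi Ψ l) * r) * u := by
      rw [e1]
      linear_combination (-(toLaurent (Phi Ψ l) * r)) * huv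
    rw [e2]
    exact I.add_mem hr (I.mul_mem_left _ hu)

/-- PROOF. The map `ev a : R →+* F` vanishes on `I`, so it factors over `R ⧸ I` (`Ideal.Quotient.lift`); it is
surjective as every element of `F` is `0` or a power of `a` (`a` generates `Fˣ`, its order is
`Nat.card F - 1`), so `Nat.card F ≤ Nat.card (R ⧸ I)` (`Nat.card_le_card_of_surjective`,
`GaloisField.card`). The order of `a` divides the order of the class of `Tu` (`orderOf_map_dvd` for
`Units.map` of the lift), which is positive as `R ⧸ I` is finite. -/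
theorem card_ge_of_ev {M : ℕ} (hM : M ≠ 0) (I : Ideal R) [Finite (R ⧸ I)]
    (a : (GaloisField 2 M)ˣ) (ha : orderOf a = 2 ^ M - 1) (hI : ∀ c ∈ I, ev a c = 0) :
    2 ^ M ≤ Nat.card (R ⧸ I) ∧ 2 ^ M ≤ ordT I + 1 := by
  have hcard : Nat.card (GaloisField 2 M) = 2 ^ M := GaloisField.card 2 M hM
  have hcardu : Nat.card (GaloisField 2 M)ˣ = 2 ^ M - 1 := by
    rw [Nat.card_units, hcard]
  set φ : R ⧸ I →+* GaloisField 2 M := Ideal.Quotient.lift I (ev a) hI with hφ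
  have hφT : ∀ n : ℤ, φ (Ideal.Quotient.mk I (T n)) = ((a ^ n : (GaloisField 2 M)ˣ) : GaloisField 2 M) := by
    intro n
    rw [hφ, Ideal.Quotient.lift_mk, ev, LaurentPolynomial.eval₂_T]
  have hgen : ∀ x : (GaloisField 2 M)ˣ, x ∈ Subgroup.zpowers a := by
    have : Subgroup.zpowers a = ⊤ := by
      apply Subgroup.eq_top_of_card_eq
      rw [Nat.card_zpowers, ha, hcardu]
    intro x
    rw [this]
    trivial
  have hsurj : Function.Surjective φ := by
    intro x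
    by_cases hx : x = 0
    · exact ⟨0, by rw [map_zero, hx]⟩
    · obtain ⟨n, hn⟩ := Subgroup.mem_zpowers_iff.1 (hgen (Units.mk0 x hx))
      refine ⟨Ideal.Quotient.mk I (T n), ?_⟩
      rw [hφT, hn, Units.val_mk0]
  refine ⟨?_, ?_⟩
  · rw [← hcard]
    exact Nat.card_le_card_of_surjective _ hsurj
  · have h1 : Units.map φ.toMonoidHom (Units.map (Ideal.Quotient.mk I).toMonoidHom Tu) = a := by
      apply Units.ext
      have h2 := hφT 1
      rw [zpow_one] at h2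
      exact h2
    have h2 : orderOf a ∣ ordT I := by
      conv_lhs => rw [← h1]
      exact orderOf_map_dvd _ _
    have h3 : 0 < ordT I := orderOf_pos _
    have h4 := Nat.le_of_dvd h3 h2
    rw [ha] at h4
    omega

/-- PROOF. Suppose `I ⊔ Ideal.span {toLaurent (Ψ l)} = ⊤` for all `l ≥ i + 1`. Take `l ≥ i + 1` with
`ordT I ≤ kap l` (`kap_unbdd`), `r` from `Phi_mem_sup`, `c` from `mul_mem_sup` for `r * T (-1)`:
`T (-1) * toLaurent (Phi Ψ (i + 1)) - c ∈ I`, contradiction to `hI`. So `Good.prim` for some `l ≥ i + 1` gives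
a primitive `a` with `ev a c = 0` on `I`; `card_ge_of_ev`, `2 ^ m i ≤ 2 ^ m l`. -/
theorem spec_lower_aux (Ψ : ℕ → (ZMod 2)[X]) (n m : ℕ → ℕ) (K : ℕ) (hm0 : ∀ i, m i ≠ 0)
    (hm : Monotone m) (hg : ∀ i, Good (m i) (n i) K (W Ψ (i + 1)) (Ψ i)) (i : ℕ) (I : Ideal R)
    (hfin : Finite (R ⧸ I)) (hI : ∀ c ∈ Call Ψ, T (-1) * toLaurent (Phi Ψ (i + 1)) - c ∉ I) :
    2 ^ (m i) ≤ Nat.card (R ⧸ I) ∧ 2 ^ (m i) ≤ ordT I + 1 := by
  by_cases hcase : ∃ l, i + 1 ≤ l ∧ ∃ a : (GaloisField 2 (m l))ˣ, orderOf a = 2 ^ (m l) - 1 ∧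
      ∀ c ∈ I, ev a c = 0
  · obtain ⟨l, hl, a, ha, hIa⟩ := hcase
    have h1 := card_ge_of_ev (hm0 l) I a ha hIa
    have h2 : 2 ^ (m i) ≤ 2 ^ (m l) := Nat.pow_le_pow_right (by norm_num) (hm (by omega))
    exact ⟨h2.trans h1.1, h2.trans h1.2⟩
  · exfalso
    have hall : ∀ l, i + 1 ≤ l → I ⊔ Ideal.span {toLaurent (Ψ l)} = ⊤ := by
      intro l hl
      rcases (hg l).prim I with h | h
      · exact h
      · exact absurd ⟨l, hl, h⟩ hcase
    obtain ⟨l, hl, hkap⟩ := kap_unbdd (ordT I) (i + 1)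
    obtain ⟨r, hr⟩ := Phi_mem_sup Ψ I (i + 1) hall l hl
    obtain ⟨c, hc, hcI⟩ := mul_mem_sup Ψ I l hkap (r * T (-1))
    apply hI c hc
    have e : T (-1) * toLaurent (Phi Ψ (i + 1)) - c =
        T (-1) * (toLaurent (Phi Ψ (i + 1)) - toLaurent (Phi Ψ l) * r) +
          (toLaurent (Phi Ψ l) * (r * T (-1)) - c) := by ring
    rw [e]
    exact I.add_mem (I.mul_mem_left _ hr) hcI

end

end Q2

end Pool.Agent.Lib.MP_f3c5e4_al
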