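import Pool.Agent.Lib.MP_f3c5e4_al.Q2.SeqC
import Pool.Agent.Lib.MP_f3c5e4_al.Q2.CombA
import Pool.Agent.Lib.MP_f3c5e4_al.Q2.CombC

/-! # The subspace C -/

set_option autoImplicit false

namespace Pool.Agent.Lib.MP_f3c5e4_al

namespace Q2

open LaurentPolynomial Polynomial

noncomputable section

/-- The combinatorial main theorem. PROOF. `exists_Psi`, `spec_upper`, `e_notMem`, `spec_lower_aux`,
`natDegree_Phi` (for `i + 1`: `4 * V * 2 ^ (i + 1 + i0) = 8 * V * 2 ^ (i + i0)`). -/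
theorem exists_spec (m : ℕ → ℕ) (V i0 : ℕ) (hm : Monotone m) (h8 : ∀ ι, 8 * ι ≤ m ι)
    (hV : ∀ ι, m ι ≤ V * ι) (hi : 1 ≤ i0) (h4 : (4 * V + 3) ^ 2 ≤ 2 ^ i0) :
    ∃ C : Submodule (ZMod 2) R, Spec C (fun i => 2 ^ (i + i0)) (fun i => m (i + i0)) (8 * V) := by
  obtain ⟨Ψ, hΨ⟩ := exists_Psi m V i0 h8 hV hi h4
  have hm0 : ∀ i, m (i + i0) ≠ 0 := fun i => by
    have := h8 (i + i0)
    omega
  refine ⟨Call Ψ, ?_, ?_⟩
  · exact spec_upper Ψ (fun i => 2 ^ (i + i0)) (fun i => m (i + i0)) (4 * V) hΨ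
  · intro i
    refine ⟨Phi Ψ (i + 1), ?_, e_notMem Ψ (fun l => (hΨ l).c0) _, ?_⟩
    · have := natDegree_Phi Ψ V i0 (i + 1) (fun l _ => (hΨ l).deg)
      have e : 4 * V * 2 ^ (i + 1 + i0) = 8 * V * 2 ^ (i + i0) := by ring
      rw [e] at this
      exact this
    · intro I hfin hI
      exact spec_lower_aux Ψ (fun i => 2 ^ (i + i0)) (fun i => m (i + i0)) (4 * V) hm0
        (fun a b hab => hm (by omega)) hΨ i I hfin hI

end

end Q2

end Pool.Agent.Lib.MP_f3c5e4_al
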