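import Pool.Agent.Lib.MP_f3c5e4_al.Main

/-! # From scales to powers -/

set_option autoImplicit false

namespace Pool.Agent.Lib.MP_f3c5e4_al

namespace Q2

noncomputable section

private lemma clog_bound {m : ℕ} (hm : 0 < m) : m ≤ 2 ^ Nat.clog 2 m ∧ 2 ^ Nat.clog 2 m ≤ 2 * m := by
  refine ⟨Nat.le_pow_clog (by norm_num) m, ?_⟩
  rcases Nat.lt_or_ge 1 m with h | h
  · have h1 := Nat.pow_pred_clog_lt_self (b := 2) (by norm_num) h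
    have h2 : 0 < Nat.clog 2 m := Nat.clog_pos (by norm_num) h
    have h3 : 2 ^ Nat.clog 2 m = 2 * 2 ^ (Nat.clog 2 m).pred := by
      rw [← pow_succ', ← Nat.succ_eq_add_one, Nat.succ_pred_eq_of_pos h2]
    omega
  · have h1 : m = 1 := by omega
    subst h1
    simp

private lemma three_floor (x : ℝ) (hx : 0 ≤ x) :
    (((2 : ℝ) ^ ⌊x⌋₊) ^ 3 ≤ (2 : ℝ) ^ (3 * x)) ∧ (2 : ℝ) ^ (3 * x) ≤ (2 * (2 : ℝ) ^ ⌊x⌋₊) ^ 3 := by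
  have h1 := Nat.floor_le hx
  have h2 := (Nat.lt_floor_add_one x).le
  constructor
  · rw [← pow_mul, ← Real.rpow_natCast]
    apply Real.rpow_le_rpow_of_exponent_le (by norm_num)
    push_cast
    linarith
  · rw [← pow_succ', ← pow_mul, ← Real.rpow_natCast]
    apply Real.rpow_le_rpow_of_exponent_le (by norm_num)
    push_cast
    linarith

private lemma pow_rpow (ι : ℕ) (α : ℝ) : ((2 : ℝ) ^ ι) ^ α = (2 : ℝ) ^ (3 * (α / 3 * (ι : ℝ))) := by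
  rw [← Real.rpow_natCast, ← Real.rpow_mul (by norm_num)]
  congr 1
  ring

/-- PROOF. `r = 0` is clear. For `r ≥ 1` take `i = Nat.clog 2 (E * r)`: `E * r ≤ 2 ^ i ≤ 2 ^ (i + i0)` and
`2 ^ (i + i0) ≤ 2 ^ (i0 + 1) * E * r` (`Nat.pow_pred_clog_lt_self`, `Nat.le_pow_clog`). With `ι = i + i0`,
`⌊α / 3 * ι⌋₊ ≤ α / 3 * ι`, so `(2 ^ ⌊α / 3 * ι⌋₊) ^ 3 ≤ 2 ^ (α * ι) = (2 ^ ι) ^ α`, hence
`F r ≤ 4 * (2 ^ (i0 + 1) * E * r) ^ α`. -/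
theorem conv_up (F : ℕ → ℕ) (h0 : F 0 = 0) (α : ℝ) (hα : 24 ≤ α) (i0 E : ℕ) (hE : 0 < E)
    (hup : ∀ i r, E * r ≤ 2 ^ (i + i0) → F r ≤ 4 * (2 ^ ⌊α / 3 * ((i + i0 : ℕ) : ℝ)⌋₊) ^ 3) (r : ℕ) :
    (F r : ℝ) ≤ 4 * ((2 ^ (i0 + 1) * E * r : ℕ) : ℝ) ^ α := by
  rcases Nat.eq_zero_or_pos r with hr | hr
  · subst hr
    rw [h0]
    have : (0 : ℝ) ≤ ((2 ^ (i0 + 1) * E * 0 : ℕ) : ℝ) ^ α := Real.rpow_nonneg (Nat.cast_nonneg _) _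
    push_cast at this ⊢
    linarith
  obtain ⟨h1, h2⟩ := clog_bound (Nat.mul_pos hE hr)
  set i := Nat.clog 2 (E * r) with hi
  have h3 : 2 ^ i ≤ 2 ^ (i + i0) := Nat.pow_le_pow_right (by norm_num) (by omega)
  have h4 := hup i r (h1.trans h3)
  have h5 : (F r : ℝ) ≤ 4 * ((2 : ℝ) ^ ⌊α / 3 * ((i + i0 : ℕ) : ℝ)⌋₊) ^ 3 := by
    exact_mod_cast h4
  have hx : 0 ≤ α / 3 * ((i + i0 : ℕ) : ℝ) := by positivity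
  have h6 := (three_floor _ hx).1
  rw [← pow_rpow] at h6
  have h7 : (2 : ℝ) ^ (i + i0) ≤ ((2 ^ (i0 + 1) * E * r : ℕ) : ℝ) := by
    have h8 : 2 ^ (i + i0) ≤ 2 ^ (i0 + 1) * E * r := by
      calc 2 ^ (i + i0) = 2 ^ i * 2 ^ i0 := pow_add _ _ _
        _ ≤ 2 * (E * r) * 2 ^ i0 := Nat.mul_le_mul_right _ h2
        _ = 2 ^ (i0 + 1) * E * r := by rw [pow_succ]; ring
    exact_mod_cast h8
  have h9 : ((2 : ℝ) ^ (i + i0)) ^ α ≤ ((2 ^ (i0 + 1) * E * r : ℕ) : ℝ) ^ α :=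
    Real.rpow_le_rpow (by positivity) h7 (by linarith)
  linarith

/-- PROOF. `r = 0` is clear (`0 ^ α = 0`). For `r ≥ 1` take `i = Nat.clog 2 r`, `ι = i + i0`:
`r ≤ 2 ^ i ≤ 2 ^ ι ≤ 2 ^ (i0 + 1) * r`. With `q = 2 ^ ⌊α / 3 * ι⌋₊ ≥ 2` and `⌊α / 3 * ι⌋₊ ≥ α / 3 * ι - 1`:
`r ^ α ≤ (2 ^ ι) ^ α = (2 ^ (α / 3 * ι)) ^ 3 ≤ (2 * q) ^ 3 = 8 * q ^ 3 ≤ 16 * (q * (q * (q - 1)))`, and
`q * (q * (q - 1)) ≤ F (E * 2 ^ ι) ≤ F (E * 2 ^ (i0 + 1) * r)`. -/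
theorem conv_low (F : ℕ → ℕ) (hF : Monotone F) (α : ℝ) (hα : 24 ≤ α) (i0 E : ℕ) (hi : 1 ≤ i0)
    (hlow : ∀ i, 2 ^ ⌊α / 3 * ((i + i0 : ℕ) : ℝ)⌋₊ * (2 ^ ⌊α / 3 * ((i + i0 : ℕ) : ℝ)⌋₊ *
      (2 ^ ⌊α / 3 * ((i + i0 : ℕ) : ℝ)⌋₊ - 1)) ≤ F (E * 2 ^ (i + i0))) (r : ℕ) :
    (r : ℝ) ^ α ≤ 16 * (F (E * 2 ^ (i0 + 1) * r) : ℝ) := by
  rcases Nat.eq_zero_or_pos r with hr | hr
  · subst hr
    rw [Nat.cast_zero, Real.zero_rpow (by linarith)]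
    positivity
  obtain ⟨h1, h2⟩ := clog_bound hr
  set i := Nat.clog 2 r with hi'
  have hlo := hlow i
  have hx : 0 ≤ α / 3 * ((i + i0 : ℕ) : ℝ) := by positivity
  have hx1 : 1 ≤ α / 3 * ((i + i0 : ℕ) : ℝ) := by
    have h3 : (1 : ℝ) ≤ ((i + i0 : ℕ) : ℝ) := by exact_mod_cast (by omega : 1 ≤ i + i0)
    nlinarith
  have hf1 : 1 ≤ ⌊α / 3 * ((i + i0 : ℕ) : ℝ)⌋₊ := Nat.le_floor (by exact_mod_cast hx1)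
  have h6 := (three_floor _ hx).2
  rw [← pow_rpow] at h6
  have hq2 : 2 ≤ 2 ^ ⌊α / 3 * ((i + i0 : ℕ) : ℝ)⌋₊ := by
    calc 2 = 2 ^ 1 := rfl
      _ ≤ _ := Nat.pow_le_pow_right (by norm_num) hf1
  have hq : (2 : ℝ) ^ ⌊α / 3 * ((i + i0 : ℕ) : ℝ)⌋₊ = ((2 ^ ⌊α / 3 * ((i + i0 : ℕ) : ℝ)⌋₊ : ℕ) : ℝ) := by
    push_cast
    rfl
  rw [hq] at h6
  revert hlo h6 hq2
  generalize 2 ^ ⌊α / 3 * ((i + i0 : ℕ) : ℝ)⌋₊ = q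
  intro hlo h6 hq2
  have h7 : (r : ℝ) ^ α ≤ ((2 : ℝ) ^ (i + i0)) ^ α := by
    apply Real.rpow_le_rpow (Nat.cast_nonneg _) _ (by linarith)
    have h8 : r ≤ 2 ^ (i + i0) := h1.trans (Nat.pow_le_pow_right (by norm_num) (by omega))
    exact_mod_cast h8
  have h8 : q * (q * (q - 1)) ≤ F (E * 2 ^ (i0 + 1) * r) := by
    refine hlo.trans (hF ?_)
    calc E * 2 ^ (i + i0) = E * (2 ^ i * 2 ^ i0) := by rw [pow_add]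
      _ ≤ E * ((2 * r) * 2 ^ i0) := Nat.mul_le_mul_left _ (Nat.mul_le_mul_right _ h2)
      _ = E * 2 ^ (i0 + 1) * r := by rw [pow_succ]; ring
  obtain ⟨s, rfl⟩ : ∃ s, q = s + 2 := ⟨q - 2, by omega⟩
  have h9 : 8 * (s + 2) ^ 3 ≤ 16 * ((s + 2) * ((s + 2) * (s + 2 - 1))) := by
    have : s + 2 - 1 = s + 1 := by omega
    rw [this]
    nlinarith [Nat.zero_le (s * s * s), Nat.zero_le (s * s)]
  have h10 : 8 * (s + 2) ^ 3 ≤ 16 * F (E * 2 ^ (i0 + 1) * r) := h9.trans (Nat.mul_le_mul_left _ h8)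
  have h11 : 8 * (((s + 2 : ℕ) : ℝ)) ^ 3 ≤ 16 * (F (E * 2 ^ (i0 + 1) * r) : ℝ) := by
    exact_mod_cast h10
  nlinarith [h6, h7, h11]

/-- PROOF. `conv_up` with `c = 2 ^ (i0 + 1) * E`, `A = ⌈α⌉₊`: for `n ≥ 1`,
`F n ≤ 4 * (c * n) ^ α ≤ 4 * c ^ A * n ^ A ≤ C * n ^ C` with `C = 4 * c ^ A + A`. -/
theorem poly_of_le (F : ℕ → ℕ) (h0 : F 0 = 0) (α : ℝ) (c : ℕ) (hc : 0 < c)
    (h : ∀ r, (F r : ℝ) ≤ 4 * ((c * r : ℕ) : ℝ) ^ α) :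
    ∃ C : ℕ, 0 < C ∧ ∀ n : ℕ, F n ≤ C * n ^ C := by
  refine ⟨4 * c ^ ⌈α⌉₊ + ⌈α⌉₊, by positivity, fun n => ?_⟩
  rcases Nat.eq_zero_or_pos n with hn | hn
  · subst hn
    rw [h0]
    exact Nat.zero_le _
  have h1 : (F n : ℝ) ≤ 4 * ((c * n : ℕ) : ℝ) ^ ⌈α⌉₊ := by
    refine (h n).trans ?_
    have h2 : (1 : ℝ) ≤ ((c * n : ℕ) : ℝ) := by exact_mod_cast Nat.mul_pos hc hn
    have h3 : ((c * n : ℕ) : ℝ) ^ α ≤ ((c * n : ℕ) : ℝ) ^ ((⌈α⌉₊ : ℕ) : ℝ) :=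
      Real.rpow_le_rpow_of_exponent_le h2 (Nat.le_ceil α)
    rw [Real.rpow_natCast] at h3
    linarith
  have h2 : F n ≤ 4 * (c * n) ^ ⌈α⌉₊ := by exact_mod_cast h1
  calc F n ≤ 4 * (c * n) ^ ⌈α⌉₊ := h2
    _ = (4 * c ^ ⌈α⌉₊) * n ^ ⌈α⌉₊ := by rw [mul_pow]; ring
    _ ≤ (4 * c ^ ⌈α⌉₊ + ⌈α⌉₊) * n ^ (4 * c ^ ⌈α⌉₊ + ⌈α⌉₊) :=
      Nat.mul_le_mul (by omega) (Nat.pow_le_pow_right hn (by omega))

/-- PROOF. `C = 4 * c`, monotonicity of `x ^ α`. -/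
theorem dom_up (F : ℕ → ℕ) (α : ℝ) (hα : 0 ≤ α) (c : ℕ) (hc : 0 < c)
    (h : ∀ r, (F r : ℝ) ≤ 4 * ((c * r : ℕ) : ℝ) ^ α) :
    Dominated (fun n => (F n : ℝ)) (fun n => (n : ℝ) ^ α) := by
  refine ⟨4 * c, by omega, fun n => ?_⟩
  show (F n : ℝ) ≤ ((4 * c : ℕ) : ℝ) * (((4 * c * n : ℕ) : ℝ)) ^ α
  have h1 := h n
  have h2 : ((c * n : ℕ) : ℝ) ^ α ≤ ((4 * c * n : ℕ) : ℝ) ^ α := by
    apply Real.rpow_le_rpow (Nat.cast_nonneg _) _ hα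
    exact_mod_cast (by nlinarith [Nat.zero_le (c * n)] : c * n ≤ 4 * c * n)
  have h3 : (4 : ℝ) ≤ ((4 * c : ℕ) : ℝ) := by exact_mod_cast (by omega : 4 ≤ 4 * c)
  have h4 : (0 : ℝ) ≤ ((4 * c * n : ℕ) : ℝ) ^ α := Real.rpow_nonneg (Nat.cast_nonneg _) _
  calc (F n : ℝ) ≤ 4 * ((c * n : ℕ) : ℝ) ^ α := h1
    _ ≤ 4 * ((4 * c * n : ℕ) : ℝ) ^ α := by linarith
    _ ≤ ((4 * c : ℕ) : ℝ) * ((4 * c * n : ℕ) : ℝ) ^ α := mul_le_mul_of_nonneg_right h3 h4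

/-- PROOF. `C = 16 * c`, monotonicity of `F`. -/
theorem dom_low (F : ℕ → ℕ) (hF : Monotone F) (α : ℝ) (c : ℕ) (hc : 0 < c)
    (h : ∀ r : ℕ, (r : ℝ) ^ α ≤ 16 * (F (c * r) : ℝ)) :
    Dominated (fun n => (n : ℝ) ^ α) (fun n => (F n : ℝ)) := by
  refine ⟨16 * c, by omega, fun n => ?_⟩
  show (n : ℝ) ^ α ≤ ((16 * c : ℕ) : ℝ) * (F (16 * c * n) : ℝ)
  have h1 := h n
  have h2 : (F (c * n) : ℝ) ≤ (F (16 * c * n) : ℝ) := by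
    exact_mod_cast hF (by nlinarith [Nat.zero_le (c * n)] : c * n ≤ 16 * c * n)
  have h3 : (16 : ℝ) ≤ ((16 * c : ℕ) : ℝ) := by exact_mod_cast (by omega : 16 ≤ 16 * c)
  have h4 : (0 : ℝ) ≤ (F (16 * c * n) : ℝ) := Nat.cast_nonneg _
  calc (n : ℝ) ^ α ≤ 16 * (F (c * n) : ℝ) := h1
    _ ≤ 16 * (F (16 * c * n) : ℝ) := by linarith
    _ ≤ ((16 * c : ℕ) : ℝ) * (F (16 * c * n) : ℝ) := mul_le_mul_of_nonneg_right h3 h4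

end

end Q2

end Pool.Agent.Lib.MP_f3c5e4_al
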