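import Pool.Agent.Lib.MP_f3c5e4_al.Main

/-! # From scales to functions -/

set_option autoImplicit false

namespace Pool.Agent.Lib.MP_f3c5e4_al

namespace Q2

noncomputable section

lemma clog_le (r c : ℕ) (hr : 0 < r) : r ≤ 2 ^ Nat.clog 2 r ∧ 2 ^ (Nat.clog 2 r + c) ≤ 2 ^ (c + 1) * r := by
  refine ⟨Nat.le_pow_clog (by norm_num) r, ?_⟩
  rcases Nat.lt_or_ge 1 r with h | h
  · have h1 := Nat.pow_pred_clog_lt_self (b := 2) (by norm_num) h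
    have h2 : 0 < Nat.clog 2 r := Nat.clog_pos (by norm_num) h
    have h3 : Nat.clog 2 r + c = (Nat.clog 2 r).pred + (c + 1) := by
      rw [Nat.pred_eq_sub_one]
      omega
    rw [h3, pow_add, mul_comm]
    exact Nat.mul_le_mul_left _ h1.le
  · have h1 : r = 1 := by omega
    subst h1
    simp [pow_succ]

theorem convF_up (F : ℕ → ℕ) (h0 : F 0 = 0) (f : ℕ → ℝ) (hf : Monotone f) (hf0 : 0 ≤ f 0)
    (m : ℕ → ℕ) (i0 E : ℕ) (hE : 0 < E)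
    (hm : ∀ i, (2 : ℝ) ^ (3 * m (i + i0)) ≤ f (2 ^ (i + i0)))
    (hup : ∀ i r, E * r ≤ 2 ^ (i + i0) → F r ≤ 4 * (2 ^ m (i + i0)) ^ 3) (r : ℕ) :
    (F r : ℝ) ≤ 4 * f (2 ^ (i0 + 1) * E * r) := by
  rcases Nat.eq_zero_or_pos r with rfl | hr
  · rw [h0]
    simpa using hf0
  · obtain ⟨h1, h2⟩ := clog_le (E * r) i0 (by positivity)
    set i := Nat.clog 2 (E * r) with hi
    have h3 : E * r ≤ 2 ^ (i + i0) := h1.trans (Nat.pow_le_pow_right (by norm_num) (by omega))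
    have h4 : (F r : ℝ) ≤ 4 * (2 : ℝ) ^ (3 * m (i + i0)) := by
      have h5 := hup i r h3
      have h6 : 4 * (2 ^ m (i + i0)) ^ 3 = 4 * 2 ^ (3 * m (i + i0)) := by
        rw [← pow_mul, mul_comm 3]
      rw [h6] at h5
      exact_mod_cast h5
    have h5 : f (2 ^ (i + i0)) ≤ f (2 ^ (i0 + 1) * E * r) := hf (by rw [mul_assoc]; exact h2)
    have h6 := hm i
    linarith

theorem convF_low (F : ℕ → ℕ) (hF : Monotone F) (f : ℕ → ℝ) (hf : Monotone f) (hf0 : f 0 ≤ 0)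
    (m : ℕ → ℕ) (i0 E : ℕ) (hm1 : ∀ i, 1 ≤ m (i + i0))
    (hm : ∀ i, f (2 ^ (i + i0)) ≤ 8 * (2 : ℝ) ^ (3 * m (i + i0)))
    (hlow : ∀ i, 2 ^ m (i + i0) * (2 ^ m (i + i0) * (2 ^ m (i + i0) - 1)) ≤ F (E * 2 ^ (i + i0)))
    (r : ℕ) : f r ≤ 16 * (F (E * 2 ^ (i0 + 1) * r) : ℝ) := by
  rcases Nat.eq_zero_or_pos r with rfl | hr
  · exact hf0.trans (by positivity)
  · obtain ⟨h1, h2⟩ := clog_le r i0 hr
    set i := Nat.clog 2 r with hi
    have h3 : f r ≤ f (2 ^ (i + i0)) :=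
      hf (h1.trans (Nat.pow_le_pow_right (by norm_num) (by omega)))
    have h4 : F (E * 2 ^ (i + i0)) ≤ F (E * 2 ^ (i0 + 1) * r) :=
      hF (by rw [mul_assoc]; exact Nat.mul_le_mul_left _ h2)
    have h5 := (hlow i).trans h4
    set q := 2 ^ m (i + i0) with hq
    have hq2 : 2 ≤ q := by
      rw [hq]
      calc 2 = 2 ^ 1 := by norm_num
        _ ≤ 2 ^ m (i + i0) := Nat.pow_le_pow_right (by norm_num) (hm1 i)
    have h6 : q ^ 3 ≤ 2 * (q * (q * (q - 1))) := by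
      have h7 : q ≤ 2 * (q - 1) := by omega
      calc q ^ 3 = q * (q * q) := by ring
        _ ≤ q * (q * (2 * (q - 1))) := by gcongr
        _ = 2 * (q * (q * (q - 1))) := by ring
    have h7 : q ^ 3 = 2 ^ (3 * m (i + i0)) := by
      rw [hq, ← pow_mul, mul_comm]
    have h8 : ((2 ^ (3 * m (i + i0)) : ℕ) : ℝ) ≤ 2 * (F (E * 2 ^ (i0 + 1) * r) : ℝ) := by
      rw [← h7]
      exact_mod_cast h6.trans (Nat.mul_le_mul_left 2 h5)
    push_cast at h8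
    have h9 := hm i
    linarith

theorem polyF (F : ℕ → ℕ) (h0 : F 0 = 0) (f : ℕ → ℝ) (C c : ℕ)
    (hf : ∀ n, f n ≤ C * (n : ℝ) ^ C) (h : ∀ r, (F r : ℝ) ≤ 4 * f (c * r)) :
    ∃ D : ℕ, 0 < D ∧ ∀ n : ℕ, F n ≤ D * n ^ D := by
  refine ⟨4 * C * c ^ C + C + 1, by positivity, fun n => ?_⟩
  rcases Nat.eq_zero_or_pos n with rfl | hn
  · rw [h0]
    exact Nat.zero_le _
  · have h1 : (F n : ℝ) ≤ 4 * (C * ((c * n : ℕ) : ℝ) ^ C) := (h n).trans (by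
      have := hf (c * n)
      linarith)
    have h2 : F n ≤ 4 * C * c ^ C * n ^ C := by
      have h3 : (F n : ℝ) ≤ ((4 * C * c ^ C * n ^ C : ℕ) : ℝ) := by
        push_cast at h1 ⊢
        rw [mul_pow] at h1
        linarith
      exact_mod_cast h3
    refine h2.trans (Nat.mul_le_mul (by omega) (Nat.pow_le_pow_right hn (by omega)))

theorem domF_up (F : ℕ → ℕ) (f : ℕ → ℝ) (hf : Monotone f) (hf0 : 0 ≤ f 0) (c : ℕ) (hc : 0 < c)
    (h : ∀ r, (F r : ℝ) ≤ 4 * f (c * r)) : Dominated (fun n => (F n : ℝ)) f := by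
  refine ⟨4 * c, by omega, fun n => ?_⟩
  have h1 : f (c * n) ≤ f (4 * c * n) := hf (Nat.mul_le_mul_right _ (by omega))
  have h2 : 0 ≤ f (4 * c * n) := hf0.trans (hf (Nat.zero_le _))
  have h3 : (1 : ℝ) ≤ c := by exact_mod_cast hc
  calc (F n : ℝ) ≤ 4 * f (c * n) := h n
    _ ≤ 4 * f (4 * c * n) := by linarith
    _ ≤ ((4 * c : ℕ) : ℝ) * f (4 * c * n) := by
        push_cast
        nlinarith

theorem domF_low (F : ℕ → ℕ) (hF : Monotone F) (f : ℕ → ℝ) (c : ℕ) (hc : 0 < c)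
    (h : ∀ r, f r ≤ 16 * (F (c * r) : ℝ)) : Dominated f (fun n => (F n : ℝ)) := by
  refine ⟨16 * c, by omega, fun n => ?_⟩
  have h1 : F (c * n) ≤ F (16 * c * n) := hF (Nat.mul_le_mul_right _ (by omega))
  have h1' : (F (c * n) : ℝ) ≤ F (16 * c * n) := by exact_mod_cast h1
  have h2 : (0 : ℝ) ≤ F (16 * c * n) := Nat.cast_nonneg _
  have h3 : (1 : ℝ) ≤ c := by exact_mod_cast hc
  calc f n ≤ 16 * (F (c * n) : ℝ) := h n
    _ ≤ 16 * (F (16 * c * n) : ℝ) := by linarith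
    _ ≤ ((16 * c : ℕ) : ℝ) * (F (16 * c * n) : ℝ) := by
        push_cast
        nlinarith

/-- The level function attached to a growth function. -/
theorem exists_level (f : ℕ → ℝ) (hf : Monotone f) (hlow : ∀ n : ℕ, (n : ℝ) ^ 24 ≤ f n)
    (hup : ∃ C : ℕ, ∀ n : ℕ, f n ≤ C * (n : ℝ) ^ C) :
    ∃ (m : ℕ → ℕ) (V : ℕ), Monotone m ∧ (∀ ι, 8 * ι ≤ m ι) ∧ (∀ ι, m ι ≤ V * ι) ∧
      ∀ ι, 1 ≤ ι → (2 : ℝ) ^ (3 * m ι) ≤ f (2 ^ ι) ∧ f (2 ^ ι) ≤ 8 * (2 : ℝ) ^ (3 * m ι) := by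
  obtain ⟨C, hC⟩ := hup
  set g : ℕ → ℕ := fun ι => Nat.log 2 ⌊f (2 ^ ι)⌋₊ with hg
  set V : ℕ := 2 * C + 8 with hV
  have hf1 : ∀ ι, (2 : ℝ) ^ (24 * ι) ≤ f (2 ^ ι) := by
    intro ι
    have := hlow (2 ^ ι)
    push_cast at this
    rw [← pow_mul, mul_comm ι] at this
    exact this
  have hfl : ∀ ι, 2 ^ (24 * ι) ≤ ⌊f (2 ^ ι)⌋₊ := by
    intro ι
    apply Nat.le_floor
    push_cast
    exact hf1 ι
  have hfpos : ∀ ι, 0 ≤ f (2 ^ ι) := fun ι => le_trans (by positivity) (hf1 ι)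
  have hfl0 : ∀ ι, ⌊f (2 ^ ι)⌋₊ ≠ 0 := fun ι => by
    have h1 := hfl ι
    have h2 : 0 < 2 ^ (24 * ι) := by positivity
    omega
  have hgmono : Monotone g := fun a b hab =>
    Nat.log_mono_right (Nat.floor_mono (hf (Nat.pow_le_pow_right (by norm_num) hab)))
  have hg24 : ∀ ι, 24 * ι ≤ g ι := fun ι => Nat.le_log_of_pow_le (by norm_num) (hfl ι)
  have hgV : ∀ ι, 1 ≤ ι → g ι ≤ V * ι := by
    intro ι hι
    have h1 : f (2 ^ ι) ≤ C * ((2 : ℝ) ^ ι) ^ C := by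
      have := hC (2 ^ ι)
      push_cast at this
      exact this
    have h2 : ⌊f (2 ^ ι)⌋₊ ≤ C * (2 ^ ι) ^ C := by
      apply Nat.floor_le_of_le
      push_cast
      exact h1
    have h3 : C * (2 ^ ι) ^ C ≤ 2 ^ (C + ι * C) := by
      rw [pow_add, ← pow_mul]
      exact Nat.mul_le_mul_right _ Nat.lt_two_pow_self.le
    have h4 : g ι ≤ C + ι * C := by
      have h5 : g ι ≤ Nat.log 2 (2 ^ (C + ι * C)) := Nat.log_mono_right (h2.trans h3)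
      rwa [Nat.log_pow (by norm_num)] at h5
    rw [hV]
    nlinarith
  refine ⟨fun ι => min (V * ι) (g ι / 3), V, ?_, ?_, ?_, ?_⟩
  · intro a b hab
    exact min_le_min (Nat.mul_le_mul_left _ hab) (Nat.div_le_div_right (hgmono hab))
  · intro ι
    refine le_min (Nat.mul_le_mul_right _ (by omega)) ?_
    have := hg24 ι
    omega
  · intro ι
    exact min_le_left _ _
  · intro ι hι
    have h1 : min (V * ι) (g ι / 3) = g ι / 3 := by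
      apply min_eq_right
      have := hgV ι hι
      omega
    simp only [h1]
    have h2 : 2 ^ g ι ≤ ⌊f (2 ^ ι)⌋₊ := Nat.pow_log_le_self 2 (hfl0 ι)
    have h3 : ⌊f (2 ^ ι)⌋₊ < 2 ^ (g ι + 1) := Nat.lt_pow_succ_log_self (by norm_num) _
    have h4 : (2 : ℝ) ^ g ι ≤ f (2 ^ ι) := by
      have h5 : ((2 ^ g ι : ℕ) : ℝ) ≤ (⌊f (2 ^ ι)⌋₊ : ℝ) := by exact_mod_cast h2
      push_cast at h5
      exact h5.trans (Nat.floor_le (hfpos ι))
    have h5 : f (2 ^ ι) ≤ (2 : ℝ) ^ (g ι + 1) := by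
      have h6 : f (2 ^ ι) < (⌊f (2 ^ ι)⌋₊ : ℝ) + 1 := Nat.lt_floor_add_one _
      have h7 : ((⌊f (2 ^ ι)⌋₊ + 1 : ℕ) : ℝ) ≤ ((2 ^ (g ι + 1) : ℕ) : ℝ) := by exact_mod_cast h3
      push_cast at h7
      linarith
    refine ⟨?_, ?_⟩
    · exact (pow_le_pow_right₀ (by norm_num) (by omega)).trans h4
    · calc f (2 ^ ι) ≤ (2 : ℝ) ^ (g ι + 1) := h5
        _ ≤ (2 : ℝ) ^ (3 + 3 * (g ι / 3)) := pow_le_pow_right₀ (by norm_num) (by omega)
        _ = 8 * (2 : ℝ) ^ (3 * (g ι / 3)) := by rw [pow_add]; norm_num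

end

end Q2

end Pool.Agent.Lib.MP_f3c5e4_al
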