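import Pool.Agent.Lib.MP_f3c5e4_al.Main

/-!
# Every real number `α ≥ 24` is an exponent of residual finiteness growth

Negative answer to Q2 of MP_f3c5e4_al.

`R = F₂[t, t⁻¹]`. For an `F₂`-subspace `C` of `R` (not an ideal in the application) the group `Gp C`
is `(R × R × R/C) ⋊ ℤ` with `(x,y,z)(x',y',z') = (x + x', y + y', z + z' + x y')`, the generator `t` of
`ℤ` acting by `(x,y,z) ↦ (t x, t⁻¹ y, z)`.

`Spec C n m K`: the depth of a central element `z = [h]` is governed by finitely many test points `a` in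
the fields `GF(2 ^ (m i))` at the length scale `n i`. The combinatorial construction of `C` is in the files
`Sel`, `Tot`, `Cnt`, `Min`, `Good`, `Seq`, `Comb`; the group theory is in `GpA`, `GpB`, `GpC`.
-/

set_option autoImplicit false

namespace Pool.Agent.Lib.MP_f3c5e4_al

namespace Q2

open LaurentPolynomial Polynomial

noncomputable section

/-- Laurent polynomials supported in `[-n, n]`. -/
def Su (n : ℕ) (f : R) : Prop := ∃ p : (ZMod 2)[X], p.natDegree ≤ 2 * n ∧ toLaurent p = f * T n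

/-- The group attached to a subspace `C` of the Laurent polynomials over the field with two elements. -/
@[ext]
structure Gp (C : Submodule (ZMod 2) R) where
  x : R
  y : R
  z : R ⧸ C
  k : ℤ

variable {C : Submodule (ZMod 2) R}

instance : Mul (Gp C) := ⟨fun g h =>
  ⟨g.x + T g.k * h.x, g.y + T (-g.k) * h.y, g.z + h.z + C.mkQ (g.x * (T (-g.k) * h.y)), g.k + h.k⟩⟩
instance : One (Gp C) := ⟨⟨0, 0, 0, 0⟩⟩
instance : Inv (Gp C) := ⟨fun g =>
  ⟨-(T (-g.k) * g.x), -(T g.k * g.y), -g.z + C.mkQ (g.x * g.y), -g.k⟩⟩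

@[simp] lemma mul_x (g h : Gp C) : (g * h).x = g.x + T g.k * h.x := rfl
@[simp] lemma mul_y (g h : Gp C) : (g * h).y = g.y + T (-g.k) * h.y := rfl
@[simp] lemma mul_z (g h : Gp C) : (g * h).z = g.z + h.z + C.mkQ (g.x * (T (-g.k) * h.y)) := rfl
@[simp] lemma mul_k (g h : Gp C) : (g * h).k = g.k + h.k := rfl
@[simp] lemma one_x : (1 : Gp C).x = 0 := rfl
@[simp] lemma one_y : (1 : Gp C).y = 0 := rfl
@[simp] lemma one_z : (1 : Gp C).z = 0 := rfl
@[simp] lemma one_k : (1 : Gp C).k = 0 := rfl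
@[simp] lemma inv_x (g : Gp C) : g⁻¹.x = -(T (-g.k) * g.x) := rfl
@[simp] lemma inv_y (g : Gp C) : g⁻¹.y = -(T g.k * g.y) := rfl
@[simp] lemma inv_z (g : Gp C) : g⁻¹.z = -g.z + C.mkQ (g.x * g.y) := rfl
@[simp] lemma inv_k (g : Gp C) : g⁻¹.k = -g.k := rfl

lemma T_neg_T (n : ℤ) (f : R) : T (-n) * (T n * f) = f := by
  rw [← mul_assoc, ← T_add, neg_add_cancel, T_zero, one_mul]

lemma T_T_neg (n : ℤ) (f : R) : T n * (T (-n) * f) = f := by
  rw [← mul_assoc, ← T_add, add_neg_cancel, T_zero, one_mul]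

instance : Group (Gp C) := Group.ofLeftAxioms
  (by
    intro a b c
    ext1
    · simp only [mul_x, mul_k, T_add]
      ring
    · simp only [mul_y, mul_k, neg_add, T_add]
      ring
    · simp only [mul_x, mul_y, mul_z, mul_k, neg_add, T_add]
      have e1 : (a.x + T a.k * b.x) * (T (-a.k) * T (-b.k) * c.y) =
          a.x * (T (-a.k) * (T (-b.k) * c.y)) + b.x * (T (-b.k) * c.y) := by
        have := T_neg_T a.k (b.x * (T (-b.k) * c.y))
        linear_combination this
      have e2 : a.x * (T (-a.k) * (b.y + T (-b.k) * c.y)) =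
          a.x * (T (-a.k) * b.y) + a.x * (T (-a.k) * (T (-b.k) * c.y)) := by ring
      rw [e1, e2, map_add, map_add]
      abel
    · simp [add_assoc])
  (by
    intro a
    ext1
    · simp
    · simp
    · simp
    · simp)
  (by
    intro a
    ext1
    · simp
    · simp
    · simp only [mul_z, inv_z, inv_x, inv_k, one_z, neg_neg]
      have : -(T (-a.k) * a.x) * (T a.k * a.y) = -(a.x * a.y) := by
        have := T_neg_T a.k (a.x * a.y)
        linear_combination -this
      rw [this, map_neg]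
      abel
    · simp)

/-- The first projection to the lamplighter group. -/
def toX : Gp C →* Lamp where
  toFun g := ⟨g.x, g.k⟩
  map_one' := rfl
  map_mul' _ _ := rfl

/-- The second projection to the lamplighter group. -/
def toY : Gp C →* Lamp where
  toFun g := ⟨g.y, -g.k⟩
  map_one' := by ext1 <;> simp
  map_mul' g h := by
    ext1
    · rfl
    · simp; ring

@[simp] lemma toX_f (g : Gp C) : (toX g).f = g.x := rfl
@[simp] lemma toX_k (g : Gp C) : (toX g).k = g.k := rfl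
@[simp] lemma toY_f (g : Gp C) : (toY g).f = g.y := rfl
@[simp] lemma toY_k (g : Gp C) : (toY g).k = -g.k := rfl

/-- generator -/
def ga : Gp C := ⟨1, 0, 0, 0⟩
/-- generator -/
def gb : Gp C := ⟨0, 1, 0, 0⟩
/-- generator -/
def gt : Gp C := ⟨0, 0, 0, 1⟩

/-- `BdG n g`: everything is supported in `[-n, n]`, the centre in `[-2 n, 2 n]`. -/
def BdG (n : ℕ) (g : Gp C) : Prop :=
  Bd n (toX g) ∧ Bd n (toY g) ∧ ∃ h : R, Su (2 * n) h ∧ g.z = C.mkQ h

/-- The order of `t` in a quotient of the ring of Laurent polynomials. -/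
def ordT (I : Ideal R) : ℕ := orderOf (Units.map (Ideal.Quotient.mk I).toMonoidHom Tu)

/-- What the combinatorial part provides. `n i` is the length scale, `2 ^ (m i)` the field size. -/
structure Spec (C : Submodule (ZMod 2) R) (n m : ℕ → ℕ) (K : ℕ) : Prop where
  upper : ∀ (i : ℕ) (h : R), Su (n i) h → h ∉ C → ∃ (a : (GaloisField 2 (m i))ˣ)
    (μ : GaloisField 2 (m i) →ₗ[ZMod 2] ZMod 2), (∀ c ∈ C, μ (ev a c) = 0) ∧ μ (ev a h) ≠ 0
  lower : ∀ i : ℕ, ∃ p : (ZMod 2)[X], p.natDegree ≤ K * n i ∧ T (-1) * toLaurent p ∉ C ∧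
    ∀ I : Ideal R, Finite (R ⧸ I) → (∀ c ∈ C, T (-1) * toLaurent p - c ∉ I) →
      2 ^ (m i) ≤ Nat.card (R ⧸ I) ∧ 2 ^ (m i) ≤ ordT I + 1

/-! ### The construction of `C` -/

/-- The number of relations introduced at level `i`. -/
def kap (i : ℕ) : ℕ := padicValNat 2 (i + 1)

/-- Products of the first terms of a sequence. -/
def Phi (Ψ : ℕ → (ZMod 2)[X]) (i : ℕ) : (ZMod 2)[X] := ∏ l ∈ Finset.range i, Ψ l

/-- The span of the relations of the levels `< i`. -/
def W (Ψ : ℕ → (ZMod 2)[X]) (i : ℕ) : Submodule (ZMod 2) R :=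
  Submodule.span (ZMod 2) {r | ∃ l < i, ∃ k < kap l, r = toLaurent (Phi Ψ l * X ^ k)}

/-- The span of all relations. -/
def Call (Ψ : ℕ → (ZMod 2)[X]) : Submodule (ZMod 2) R :=
  Submodule.span (ZMod 2) {r | ∃ l, ∃ k < kap l, r = toLaurent (Phi Ψ l * X ^ k)}

/-- An admissible choice `Ψ` at a level with field size `2 ^ M`, length scale `N` and span of the
relations up to this level `V`. -/
structure Good (M N K : ℕ) (V : Submodule (ZMod 2) R) (Ψ : (ZMod 2)[X]) : Prop where
  deg : Ψ.natDegree ≤ K * N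
  ne : Ψ ≠ 0
  c0 : Ψ.coeff 0 ≠ 0
  sep : ∀ h : R, Su N h → h ∉ V → ∃ a : (GaloisField 2 M)ˣ, ev a (toLaurent Ψ) = 0 ∧
    ∀ r ∈ V, ev a h ≠ ev a r
  prim : ∀ I : Ideal R, I ⊔ Ideal.span {toLaurent Ψ} = ⊤ ∨
    ∃ a : (GaloisField 2 M)ˣ, orderOf a = 2 ^ M - 1 ∧ ∀ c ∈ I, ev a c = 0

end

end Q2

end Pool.Agent.Lib.MP_f3c5e4_al
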