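import Pool.Agent.Lib.MP_f3c5e4_al.Q2.GpE
import Pool.Agent.Lib.MP_f3c5e4_al.Q2.Comb
import Pool.Agent.Lib.MP_f3c5e4_al.Q2.Conv

/-! # The main theorem -/

set_option autoImplicit false

namespace Pool.Agent.Lib.MP_f3c5e4_al

namespace Q2

open LaurentPolynomial Polynomial

noncomputable section

theorem main (α : ℝ) (hα : 24 ≤ α) :
    ∃ (G : Type) (_ : Group G), Group.FG G ∧
      (∀ g : G, g ≠ 1 → ∃ N : Subgroup G, N.Normal ∧ N.index ≠ 0 ∧ g ∉ N) ∧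
      (¬ ∃ K : Subgroup G, K.index ≠ 0 ∧ Group.IsNilpotent K) ∧
      ∀ S : Finset G, Subgroup.closure (S : Set G) = ⊤ →
        (∃ C : ℕ, 0 < C ∧ ∀ n : ℕ, rfGrowth S n ≤ C * n ^ C) ∧
        Dominated (fun n => (rfGrowth S n : ℝ)) (fun n => (n : ℝ) ^ α) ∧
        Dominated (fun n => (n : ℝ) ^ α) (fun n => (rfGrowth S n : ℝ)) := by
  set m : ℕ → ℕ := fun ι => ⌊α / 3 * (ι : ℝ)⌋₊ with hm
  set V : ℕ := ⌈α / 3⌉₊ with hV
  set i0 : ℕ := (4 * V + 3) ^ 2 with hi0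
  have hi1 : 1 ≤ i0 := Nat.one_le_pow _ _ (by omega)
  have hmono : Monotone m := fun a b hab => Nat.floor_mono (by
    have : (a : ℝ) ≤ b := by exact_mod_cast hab
    have : 0 ≤ α / 3 := by linarith
    gcongr)
  have h8 : ∀ ι, 8 * ι ≤ m ι := fun ι => Nat.le_floor (by
    push_cast
    have : (0 : ℝ) ≤ ι := Nat.cast_nonneg _
    nlinarith)
  have hmV : ∀ ι, m ι ≤ V * ι := fun ι => Nat.floor_le_of_le (by
    push_cast
    have h1 : α / 3 ≤ V := Nat.le_ceil _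
    gcongr)
  have h4 : (4 * V + 3) ^ 2 ≤ 2 ^ i0 := Nat.lt_two_pow_self.le
  obtain ⟨C, hC⟩ := exists_spec m V i0 hmono h8 hmV hi1 h4
  have hm0 : ∀ i, m (i + i0) ≠ 0 := fun i => by
    have := h8 (i + i0)
    omega
  have hnm : ∀ i, 2 ^ (i + i0) + 1 ≤ 2 ^ (m (i + i0)) := fun i => by
    have h1 : i + i0 + 1 ≤ m (i + i0) := by
      have := h8 (i + i0)
      omega
    have h2 : 2 ^ (i + i0 + 1) ≤ 2 ^ (m (i + i0)) := Nat.pow_le_pow_right (by norm_num) h1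
    have h3 : 1 ≤ 2 ^ (i + i0) := Nat.one_le_two_pow
    rw [pow_succ] at h2
    omega
  have hn : ∀ r, ∃ i, r ≤ 2 ^ (i + i0) := fun r =>
    ⟨r, (Nat.lt_two_pow_self (n := r)).le.trans (Nat.pow_le_pow_right (by norm_num) (by omega))⟩
  have hn1 : ∀ i, 1 ≤ 2 ^ (i + i0) := fun i => Nat.one_le_two_pow
  refine ⟨Gp C, inferInstance, gp_fg, gp_rf hC hm0 hnm hn, gp_not_vnilp, ?_⟩
  intro S hS
  obtain ⟨E, hE, hup, hlow⟩ := growth_bounds hC hm0 hnm hn hn1 S hS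
  have hmonoF := rf_mono hC hm0 hnm hn S
  have hup' := conv_up (rfGrowth S) (rf_zero S) α hα i0 E hE hup
  have hlow' := conv_low (rfGrowth S) hmonoF α hα i0 E hi1 hlow
  have hc : 0 < 2 ^ (i0 + 1) * E := by positivity
  have hc' : 0 < E * 2 ^ (i0 + 1) := by positivity
  exact ⟨poly_of_le _ (rf_zero S) α _ hc hup', dom_up _ α (by linarith) _ hc hup',
    dom_low _ hmonoF α _ hc' hlow'⟩

end

end Q2

end Pool.Agent.Lib.MP_f3c5e4_al
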