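import Pool.Agent.Lib.MP_f3c5e4_al.Q2.GpE
import Pool.Agent.Lib.MP_f3c5e4_al.Q2.Comb
import Pool.Agent.Lib.MP_f3c5e4_al.Q2.ConvF

/-! # The realization theorem: every function between `n ^ 24` and a polynomial -/

set_option autoImplicit false

namespace Pool.Agent.Lib.MP_f3c5e4_al

namespace Q2

open LaurentPolynomial Polynomial

noncomputable section

theorem mainF (f : ℕ → ℝ) (hf : Monotone f) (hlow : ∀ n : ℕ, (n : ℝ) ^ 24 ≤ f n)
    (hup : ∃ C : ℕ, ∀ n : ℕ, f n ≤ C * (n : ℝ) ^ C) :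
    ∃ (G : Type) (_ : Group G), Group.FG G ∧
      (∀ g : G, g ≠ 1 → ∃ N : Subgroup G, N.Normal ∧ N.index ≠ 0 ∧ g ∉ N) ∧
      (¬ ∃ K : Subgroup G, K.index ≠ 0 ∧ Group.IsNilpotent K) ∧
      ∀ S : Finset G, Subgroup.closure (S : Set G) = ⊤ →
        (∃ C : ℕ, 0 < C ∧ ∀ n : ℕ, rfGrowth S n ≤ C * n ^ C) ∧
        Dominated (fun n => (rfGrowth S n : ℝ)) f ∧ Dominated f (fun n => (rfGrowth S n : ℝ)) := by
  obtain ⟨m, V, hmono, h8, hmV, hmf⟩ := exists_level f hf hlow hup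
  set i0 : ℕ := (4 * V + 3) ^ 2 with hi0
  have hi1 : 1 ≤ i0 := Nat.one_le_pow _ _ (by omega)
  have h4 : (4 * V + 3) ^ 2 ≤ 2 ^ i0 := Nat.lt_two_pow_self.le
  obtain ⟨C, hC⟩ := exists_spec m V i0 hmono h8 hmV hi1 h4
  have hm0 : ∀ i, m (i + i0) ≠ 0 := fun i => by
    have := h8 (i + i0)
    omega
  have hnm : ∀ i, 2 ^ (i + i0) + 1 ≤ 2 ^ (m (i + i0)) := fun i => by
    have h1 : i + i0 + 1 ≤ m (i + i0) := by
      have := h8 (i + i0)
      omega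
    have h2 : 2 ^ (i + i0 + 1) ≤ 2 ^ (m (i + i0)) := Nat.pow_le_pow_right (by norm_num) h1
    have h3 : 1 ≤ 2 ^ (i + i0) := Nat.one_le_two_pow
    rw [pow_succ] at h2
    omega
  have hn : ∀ r, ∃ i, r ≤ 2 ^ (i + i0) := fun r =>
    ⟨r, (Nat.lt_two_pow_self (n := r)).le.trans (Nat.pow_le_pow_right (by norm_num) (by omega))⟩
  have hn1 : ∀ i, 1 ≤ 2 ^ (i + i0) := fun i => Nat.one_le_two_pow
  have hf0 : 0 ≤ f 0 := by
    have := hlow 0
    simpa using this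
  obtain ⟨C', hC'⟩ := hup
  have hC'0 : C' ≠ 0 := by
    rintro rfl
    have h1 := hC' 1
    have h2 := hlow 1
    norm_num at h1 h2
    linarith
  have hf0' : f 0 ≤ 0 := by
    have h1 := hC' 0
    rw [Nat.cast_zero, zero_pow hC'0, mul_zero] at h1
    exact h1
  refine ⟨Gp C, inferInstance, gp_fg, gp_rf hC hm0 hnm hn, gp_not_vnilp, ?_⟩
  intro S hS
  obtain ⟨E, hE, hup', hlow'⟩ := growth_bounds hC hm0 hnm hn hn1 S hS
  have hmonoF := rf_mono hC hm0 hnm hn S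
  have hu := convF_up (rfGrowth S) (rf_zero S) f hf hf0 m i0 E hE
    (fun i => (hmf (i + i0) (by omega)).1) hup'
  have hc : 0 < 2 ^ (i0 + 1) * E := by positivity
  have hc' : 0 < E * 2 ^ (i0 + 1) := by positivity
  have hl := convF_low (rfGrowth S) hmonoF f hf hf0' m i0 E
    (fun i => Nat.one_le_iff_ne_zero.2 (hm0 i)) (fun i => (hmf (i + i0) (by omega)).2) hlow'
  exact ⟨polyF _ (rf_zero S) f C' _ hC' hu, domF_up _ f hf hf0 _ hc hu, domF_low _ hmonoF f _ hc' hl⟩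

end

end Q2

end Pool.Agent.Lib.MP_f3c5e4_al
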