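import Pool.Agent.Lib.MP_f3c5e4_al.Q2.MinA

/-! # Products of minimal polynomials -/

set_option autoImplicit false

namespace Pool.Agent.Lib.MP_f3c5e4_al

namespace Q2

open LaurentPolynomial Polynomial

noncomputable section

/-- PROOF. `Ideal.sup_mul_eq_of_coprime_left` and relatives, or: `1 = u + v p`, `1 = u' + v' q` with
`u, u' ∈ I`, so `1 = (u + v p)(u' + v' q) ∈ I + (p q)`. -/
theorem sup_mul_top {A : Type} [CommRing A] (I : Ideal A) (p q : A)
    (hp : I ⊔ Ideal.span {p} = ⊤) (hq : I ⊔ Ideal.span {q} = ⊤) :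
    I ⊔ Ideal.span {p * q} = ⊤ := by
  rw [← Ideal.span_singleton_mul_span_singleton, Ideal.sup_mul_eq_of_coprime_left hp, hq]

/-- A set of primitive elements. PROOF. Induction on `A` (`Finset.induction_on`), with
`Finset.prod_insert`, `Polynomial.natDegree_mul_le`, `Polynomial.mul_coeff_zero`, `min_facts`, `min_prim`,
`sup_mul_top`; for `A = ∅` the product is `1`. -/
theorem prod_min {M : ℕ} (hM : M ≠ 0) (A : Finset (GaloisField 2 M)ˣ)
    (hA : ∀ a ∈ A, orderOf a = 2 ^ M - 1) :
    (∏ a ∈ A, minpoly (ZMod 2) (a : GaloisField 2 M)).natDegree ≤ A.card * M ∧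
      (∏ a ∈ A, minpoly (ZMod 2) (a : GaloisField 2 M)) ≠ 0 ∧
      (∏ a ∈ A, minpoly (ZMod 2) (a : GaloisField 2 M)).coeff 0 ≠ 0 ∧
      (∀ a ∈ A, ev a (toLaurent (∏ a ∈ A, minpoly (ZMod 2) (a : GaloisField 2 M))) = 0) ∧
      ∀ I : Ideal R, I ⊔ Ideal.span {toLaurent (∏ a ∈ A, minpoly (ZMod 2) (a : GaloisField 2 M))} = ⊤ ∨
        ∃ a : (GaloisField 2 M)ˣ, orderOf a = 2 ^ M - 1 ∧ ∀ c ∈ I, ev a c = 0 := by
  classical
  induction A using Finset.induction_on with
  | empty =>
    rw [Finset.prod_empty]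
    refine ⟨?_, one_ne_zero, ?_, fun a ha => absurd ha (Finset.notMem_empty a),
      fun I => Or.inl ?_⟩
    · rw [natDegree_one]
      exact Nat.zero_le _
    · rw [coeff_one_zero]
      exact one_ne_zero
    · rw [map_one, Ideal.span_singleton_one, sup_top_eq]
  | insert b s hb ih =>
    obtain ⟨i1, i2, i3, i4, i5⟩ := ih fun a ha => hA a (Finset.mem_insert_of_mem ha)
    obtain ⟨m1, m2, m3, m4⟩ := min_facts hM b
    rw [Finset.prod_insert hb]
    refine ⟨?_, mul_ne_zero m2 i2, ?_, ?_, ?_⟩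
    · rw [Finset.card_insert_of_notMem hb, add_mul, one_mul, add_comm]
      exact natDegree_mul_le.trans (add_le_add m1 i1)
    · rw [mul_coeff_zero]
      exact mul_ne_zero m3 i3
    · intro a ha
      rw [map_mul, map_mul]
      rcases Finset.mem_insert.1 ha with h1 | h1
      · rw [h1, m4, zero_mul]
      · rw [i4 a h1, mul_zero]
    · intro I
      rcases min_prim b I with h1 | h1
      · rcases i5 I with h2 | h2
        · left
          rw [map_mul]
          exact sup_mul_top I _ _ h1 h2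
        · exact Or.inr h2
      · exact Or.inr ⟨b, hA b (Finset.mem_insert_self b s), h1⟩

end

end Q2

end Pool.Agent.Lib.MP_f3c5e4_al
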