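import Pool.Agent.Lib.MP_f3c5e4_al.Q2.Sel
import Pool.Agent.Lib.MP_f3c5e4_al.Q2.CntA
import Pool.Agent.Lib.MP_f3c5e4_al.Q2.CntB
import Pool.Agent.Lib.MP_f3c5e4_al.Q2.MinB

/-! # Existence of admissible choices -/

set_option autoImplicit false

namespace Pool.Agent.Lib.MP_f3c5e4_al

namespace Q2

open LaurentPolynomial Polynomial

noncomputable section

/-- PROOF. `P` from `card_prim` (nonempty as the totient of a positive number is positive), `U0` from
`count_Su N`, `U := U0.filter fun h => Su N h ∧ h ∉ V` (classical). For `h` put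
`bad h := P.filter fun a => ∃ r ∈ V, ev a h = ev a r`; by `bad_le` and `h1`,
`2 ^ s * (bad h).card ≤ P.card` for `h ∈ U`. `U.card ≤ 2 ^ (2 * N + 1) < 2 ^ (s * T)` by `h2`. `select` gives
`A ⊆ P` with `A.card ≤ T`; `Ψ := ∏ a ∈ A, minpoly a`; `prod_min`; the degree is at most
`A.card * M ≤ T * M ≤ K * N`. -/
theorem exists_good (M N D s T K : ℕ) (hM : M ≠ 0) (V : Submodule (ZMod 2) R) [Finite V]
    (hD : ∀ r ∈ V, ∃ w : (ZMod 2)[X], w.natDegree ≤ D ∧ toLaurent w = r)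
    (h1 : 2 ^ s * (Nat.card V * (2 * N + D)) ≤ Nat.totient (2 ^ M - 1))
    (h2 : 2 * N + 1 < s * T) (h3 : T * M ≤ K * N) : ∃ Ψ, Good M N K V Ψ := by
  classical
  obtain ⟨P, hP, hPc⟩ := card_prim M hM
  have hpos : 0 < 2 ^ M - 1 := by
    have h4 : 1 < 2 ^ M := Nat.one_lt_pow hM (by norm_num)
    omega
  have hPne : P.Nonempty := by
    rw [← Finset.card_pos, hPc]
    exact Nat.totient_pos.2 hpos
  obtain ⟨U0, hU0, hU0c⟩ := count_Su N
  obtain ⟨U, hU⟩ : ∃ U : Finset R, U = U0.filter fun h => Su N h ∧ h ∉ V := ⟨_, rfl⟩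
  obtain ⟨bad, hb⟩ : ∃ bad : R → Finset (GaloisField 2 M)ˣ,
      bad = fun h => P.filter fun a => ∃ r ∈ V, ev a h = ev a r := ⟨_, rfl⟩
  have hbad : ∀ h ∈ U, bad h ⊆ P ∧ 2 ^ s * (bad h).card ≤ P.card := by
    intro h hh
    rw [hU] at hh
    obtain ⟨-, h1', h2'⟩ := Finset.mem_filter.1 hh
    have hs : bad h ⊆ P := by
      rw [hb]
      exact Finset.filter_subset _ _
    refine ⟨hs, ?_⟩
    have h5 : (bad h).card ≤ Nat.card V * (2 * N + D) := by
      refine bad_le V hD h1' h2' (bad h) fun a ha => ?_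
      rw [hb] at ha
      exact (Finset.mem_filter.1 ha).2
    rw [hPc]
    exact (Nat.mul_le_mul_left _ h5).trans h1
  have hUc : U.card < 2 ^ (s * T) := by
    rw [hU]
    exact ((Finset.card_filter_le _ _).trans hU0c).trans_lt
      (Nat.pow_lt_pow_right (by norm_num) h2)
  obtain ⟨A, hAP, hAc, hA⟩ := select P hPne bad s T U hbad hUc
  obtain ⟨p1, p2, p3, p4, p5⟩ := prod_min hM A fun a ha => (hP a).1 (hAP ha)
  refine ⟨∏ a ∈ A, minpoly (ZMod 2) (a : GaloisField 2 M), ?_, p2, p3, ?_, p5⟩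
  · exact p1.trans ((Nat.mul_le_mul_right _ hAc).trans h3)
  · intro h hh hV
    have hUh : h ∈ U := by
      rw [hU]
      exact Finset.mem_filter.2 ⟨hU0 h hh, hh, hV⟩
    obtain ⟨a, ha, hba⟩ := hA h hUh
    refine ⟨a, p4 a ha, fun r hr he => hba ?_⟩
    rw [hb]
    exact Finset.mem_filter.2 ⟨hAP ha, r, hr, he⟩

end

end Q2

end Pool.Agent.Lib.MP_f3c5e4_al
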