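import Pool.Agent.Lib.MP_f3c5e4_al.Q2.Tot

/-! # Numerical conditions -/

set_option autoImplicit false

namespace Pool.Agent.Lib.MP_f3c5e4_al

namespace Q2

/-- The numerical conditions at level `i`, with `ι = i + i0` (and `V` a number here).
PROOF. (h1) By `totient_sq` it suffices that `(2 ^ ι * (c * (2 * 2 ^ ι + (4 * V + 1) * 2 ^ ι))) ^ 2 ≤ 2 ^ M - 1`;
with `c ≤ 2 ^ ι` and `(4 * V + 3) ^ 2 ≤ 2 ^ ι` the left side is at most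
`(2 ^ (3 * ι)) ^ 2 * 2 ^ ι = 2 ^ (7 * ι) ≤ 2 ^ (8 * ι) - 1`. (h2) `Nat.lt_mul_div_succ`. (h3)
`((2 N + 1) / ι + 1) * M ≤ ((2 N + 1) / ι + 1) * (V * ι) ≤ V * (2 N + 1 + ι) ≤ V * (4 N)` as `ι < 2 ^ ι = N`. -/
theorem num_level (M V ι c : ℕ) (hι : 1 ≤ ι) (h8 : 8 * ι ≤ M) (hV : M ≤ V * ι)
    (hc : c ≤ 2 ^ ι) (h4 : (4 * V + 3) ^ 2 ≤ 2 ^ ι) :
    2 ^ ι * (c * (2 * 2 ^ ι + (4 * V + 1) * 2 ^ ι)) ≤ Nat.totient (2 ^ M - 1) ∧
      2 * 2 ^ ι + 1 < ι * ((2 * 2 ^ ι + 1) / ι + 1) ∧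
      ((2 * 2 ^ ι + 1) / ι + 1) * M ≤ 4 * V * 2 ^ ι := by
  obtain ⟨N, hN⟩ : ∃ N, 2 ^ ι = N := ⟨_, rfl⟩
  have hιN : ι < N := hN ▸ Nat.lt_two_pow_self
  have hN2 : 2 ≤ N := by
    rw [← hN]
    calc 2 = 2 ^ 1 := by norm_num
      _ ≤ 2 ^ ι := Nat.pow_le_pow_right (by norm_num) hι
  refine ⟨?_, ?_, ?_⟩
  · have hM1 : 1 ≤ M := by omega
    have hodd : Odd (2 ^ M - 1) := by
      obtain ⟨m, rfl⟩ : ∃ m, M = m + 1 := ⟨M - 1, by omega⟩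
      refine ⟨2 ^ m - 1, ?_⟩
      have h1 : 1 ≤ 2 ^ m := Nat.one_le_two_pow
      rw [pow_succ]
      omega
    have ht := totient_sq (2 ^ M - 1) hodd
    have hM8 : N ^ 8 ≤ 2 ^ M := by
      rw [← hN, ← pow_mul]
      exact Nat.pow_le_pow_right (by norm_num) (by rw [Nat.mul_comm]; exact h8)
    have hL : 2 ^ ι * (c * (2 * 2 ^ ι + (4 * V + 1) * 2 ^ ι)) ≤ N ^ 3 * (4 * V + 3) := by
      rw [hN]
      rw [hN] at hc
      calc N * (c * (2 * N + (4 * V + 1) * N)) ≤ N * (N * (2 * N + (4 * V + 1) * N)) :=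
            Nat.mul_le_mul_left _ (Nat.mul_le_mul_right _ hc)
        _ = N ^ 3 * (4 * V + 3) := by ring
    have hS : (N ^ 3 * (4 * V + 3)) ^ 2 ≤ N ^ 7 := by
      rw [hN] at h4
      calc (N ^ 3 * (4 * V + 3)) ^ 2 = N ^ 6 * (4 * V + 3) ^ 2 := by ring
        _ ≤ N ^ 6 * N := Nat.mul_le_mul_left _ h4
        _ = N ^ 7 := by ring
    have h78 : N ^ 7 + 1 ≤ N ^ 8 := by
      have h1 : 1 ≤ N ^ 7 := Nat.one_le_pow _ _ (by omega)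
      calc N ^ 7 + 1 ≤ N ^ 7 * 2 := by omega
        _ ≤ N ^ 7 * N := Nat.mul_le_mul_left _ hN2
        _ = N ^ 8 := by ring
    have hfin : (N ^ 3 * (4 * V + 3)) ^ 2 ≤ Nat.totient (2 ^ M - 1) ^ 2 := by
      refine le_trans hS (le_trans ?_ ht)
      omega
    refine le_trans hL ?_
    exact (Nat.pow_le_pow_iff_left (by norm_num)).1 hfin
  · exact Nat.lt_mul_div_succ _ (by omega)
  · rw [hN]
    have hd : (2 * N + 1) / ι * ι ≤ 2 * N + 1 := Nat.div_mul_le_self _ _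
    calc ((2 * N + 1) / ι + 1) * M ≤ ((2 * N + 1) / ι + 1) * (V * ι) := Nat.mul_le_mul_left _ hV
      _ = V * ((2 * N + 1) / ι * ι + ι) := by ring
      _ ≤ V * (4 * N) := Nat.mul_le_mul_left _ (by omega)
      _ = 4 * V * N := by ring

end Q2

end Pool.Agent.Lib.MP_f3c5e4_al
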