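import Pool.Agent.Lib.MP_f3c5e4_al.Q2.Defs

/-! # Supports and depths -/

set_option autoImplicit false

namespace Pool.Agent.Lib.MP_f3c5e4_al

namespace Q2

open LaurentPolynomial Polynomial

noncomputable section

/-- PROOF. For `N` in `H` take `N.comap φ`: normal, `g ∉`, its index divides / is at most `N.index`
(`Subgroup.index_comap`, `Subgroup.relIndex`, e.g. `index_le` from Depth.lean with the map
`x ↦ (φ x : H ⧸ N)`). For the depth take the `N` attaining it (`Nat.sInf_mem`), and `depth_le`. -/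
theorem depth_comap_le {G H : Type} [Group G] [Group H] (φ : G →* H) {g : G}
    (hne : ∃ N : Subgroup H, N.Normal ∧ N.index ≠ 0 ∧ φ g ∉ N) :
    (∃ N : Subgroup G, N.Normal ∧ N.index ≠ 0 ∧ g ∉ N) ∧ depth g ≤ depth (φ g) := by
  have key : ∀ N : Subgroup H, N.Normal → N.index ≠ 0 → φ g ∉ N →
      (N.comap φ).Normal ∧ (N.comap φ).index ≠ 0 ∧ g ∉ N.comap φ ∧ (N.comap φ).index ≤ N.index := by
    intro N hN hN0 hgN
    have hfin : Finite (H ⧸ N) := Nat.finite_of_card_ne_zero hN0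
    have h := index_le (N.comap φ) (α := H ⧸ N) (fun x => (φ x : H ⧸ N)) (by
      intro x y hxy
      have := QuotientGroup.eq.1 hxy
      show φ (x⁻¹ * y) ∈ N
      rw [map_mul, map_inv]
      exact this)
    exact ⟨hN.comap φ, h.1, fun hc => hgN hc, h.2⟩
  obtain ⟨N0, h1, h2, h3⟩ := hne
  refine ⟨⟨N0.comap φ, (key N0 h1 h2 h3).1, (key N0 h1 h2 h3).2.1, (key N0 h1 h2 h3).2.2.1⟩, ?_⟩
  refine le_depth ⟨N0, h1, h2, h3⟩ ?_
  intro N hN hN0 hgN
  obtain ⟨k1, k2, k3, k4⟩ := key N hN hN0 hgN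
  exact depth_le _ k1 k2 k3 k4

/-- PROOF. As `Bd.mono` in Lamp.lean. -/
theorem Su.mono {m n : ℕ} (hmn : m ≤ n) {f : R} (h : Su m f) : Su n f := by
  obtain ⟨p, hp, hp'⟩ := h
  refine ⟨p * X ^ (n - m), ?_, ?_⟩
  · refine (Polynomial.natDegree_mul_le).trans ?_
    rw [Polynomial.natDegree_X_pow]
    omega
  · rw [map_mul, hp', Polynomial.toLaurent_X_pow, mul_assoc, ← T_add]
    congr 2
    omega

/-- PROOF. `Su.mono` to `max m n`, then add the polynomials. -/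
theorem Su.add {n : ℕ} {f g : R} (hf : Su n f) (hg : Su n g) : Su n (f + g) := by
  obtain ⟨p, hp, hp'⟩ := hf
  obtain ⟨q, hq, hq'⟩ := hg
  refine ⟨p + q, (Polynomial.natDegree_add_le _ _).trans (max_le hp hq), ?_⟩
  rw [map_add, hp', hq', add_mul]

/-- PROOF. Multiply the polynomials; `T (m + n) = T m * T n`. -/
theorem Su.mul {m n : ℕ} {f g : R} (hf : Su m f) (hg : Su n g) : Su (m + n) (f * g) := by
  obtain ⟨p, hp, hp'⟩ := hf
  obtain ⟨q, hq, hq'⟩ := hg
  refine ⟨p * q, (Polynomial.natDegree_mul_le).trans (by omega), ?_⟩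
  rw [map_mul, hp', hq']
  push_cast
  rw [T_add]
  ring

/-- PROOF. `Su m (T k)`: `T k * T m = toLaurent (X ^ (k + m).toNat)`, `0 ≤ k + m ≤ 2 m`; then `Su.mul`. -/
theorem Su.T_mul {m n : ℕ} {k : ℤ} (hk : |k| ≤ m) {f : R} (hf : Su n f) : Su (m + n) (T k * f) := by
  refine Su.mul ?_ hf
  have h0 : 0 ≤ k + m := by
    have := (abs_le.1 hk).1
    linarith
  have h1 : k + m ≤ 2 * m := by
    have := (abs_le.1 hk).2
    linarith
  refine ⟨X ^ (k + m).toNat, ?_, ?_⟩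
  · rw [Polynomial.natDegree_X_pow]
    omega
  · rw [Polynomial.toLaurent_X_pow, Int.toNat_of_nonneg h0, T_add]

/-- PROOF. `exists_Bd` in Lamp.lean for `⟨f, 0⟩`. -/
theorem exists_Su (f : R) : ∃ n, Su n f := by
  obtain ⟨n, hn⟩ := exists_Bd ⟨f, 0⟩
  exact ⟨n, hn.1⟩

end

end Q2

end Pool.Agent.Lib.MP_f3c5e4_al
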