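import Pool.Agent.Lib.MP_f3c5e4_al.Q2.GpAA

/-! # Supports of group elements -/

set_option autoImplicit false

namespace Pool.Agent.Lib.MP_f3c5e4_al

namespace Q2

open LaurentPolynomial Polynomial

noncomputable section

variable {C : Submodule (ZMod 2) R}

/-- PROOF. `exists_Bd`, `exists_Su`, `Submodule.mkQ_surjective`, take the sum of the radii. -/
theorem exists_BdG (g : Gp C) : ∃ n, BdG n g := by
  obtain ⟨a, ha⟩ := exists_Bd (toX g)
  obtain ⟨b, hb⟩ := exists_Bd (toY g)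
  obtain ⟨h, hh⟩ := C.mkQ_surjective g.z
  obtain ⟨c, hc⟩ := exists_Su h
  exact ⟨a + b + c, ha.mono (by omega), hb.mono (by omega), h, hc.mono (by omega), hh.symm⟩

/-- PROOF. `Bd.mono`, `Su.mono`. -/
theorem BdG.mono {m n : ℕ} (hmn : m ≤ n) {g : Gp C} (h : BdG m g) : BdG n g := by
  obtain ⟨h1, h2, u, hu, hu'⟩ := h
  exact ⟨h1.mono hmn, h2.mono hmn, u, hu.mono (by omega), hu'⟩

/-- PROOF. `Bd.mul` for the two projections (`map_mul`). Centre: if `g.z = [u]`, `h.z = [v]`, then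
`(g * h).z = [u + v + g.x * (T (-g.k) * h.y)]`, and `g.x * (T (-g.k) * h.y)` has support in
`[-(m + (m + n)), m + (m + n)]` (`Su.T_mul`, `Su.mul`; `|g.k| ≤ m` from `(h.1).2`). -/
theorem BdG.mul {m n : ℕ} {g h : Gp C} (hg : BdG m g) (hh : BdG n h) : BdG (m + n) (g * h) := by
  obtain ⟨h1, h2, u, hu, hu'⟩ := hg
  obtain ⟨k1, k2, v, hv, hv'⟩ := hh
  refine ⟨?_, ?_, u + v + g.x * (T (-g.k) * h.y), ?_, ?_⟩
  · rw [map_mul]
    exact h1.mul k1
  · rw [map_mul]
    exact h2.mul k2
  · have e1 : Su m g.x := h1.1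
    have e2 : Su n h.y := k2.1
    have e3 : |(-g.k : ℤ)| ≤ m := h2.2
    refine Su.add (Su.add (hu.mono (by omega)) (hv.mono (by omega))) ?_
    exact (e1.mul (Su.T_mul e3 e2)).mono (by omega)
  · rw [mul_z, hu', hv', map_add, map_add]

theorem BdG_one (n : ℕ) : BdG n (1 : Gp C) :=
  ⟨by rw [map_one]; exact Bd_one n, by rw [map_one]; exact Bd_one n, 0, ⟨0, by simp, by simp⟩, by simp⟩

/-- PROOF. As `exists_E` in Lamp.lean. -/
theorem exists_EG (S : Finset (Gp C)) : ∃ E : ℕ, 0 < E ∧ ∀ n, ∀ g ∈ ball S n, BdG (E * n) g := by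
  classical
  choose b hb using exists_BdG (C := C)
  set E := S.sum (fun s => b s + b s⁻¹) with hE
  have hs : ∀ s : Gp C, (s ∈ S ∨ s⁻¹ ∈ S) → BdG E s := by
    have h1 : ∀ s ∈ S, b s + b s⁻¹ ≤ E := fun s hs =>
      Finset.single_le_sum (f := fun s => b s + b s⁻¹) (fun _ _ => Nat.zero_le _) hs
    intro s hs
    rcases hs with hs | hs
    · exact (hb s).mono (by have := h1 s hs; omega)
    · have := h1 _ hs
      rw [inv_inv] at this
      exact (hb s).mono (by omega)
  refine ⟨E + 1, by omega, ?_⟩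
  rintro n g ⟨l, hl, hlS, rfl⟩
  have : BdG (E * l.length) l.prod := by
    clear hl
    induction l with
    | nil => simpa using BdG_one (C := C) 0
    | cons a l ih =>
      have ih' := ih (fun x hx => hlS x (by simp [hx]))
      have ha := hs a (hlS a (by simp))
      rw [List.prod_cons, List.length_cons, mul_add, mul_one, add_comm]
      exact ha.mul ih'
  exact this.mono (Nat.mul_le_mul (by omega) hl)

end

end Q2

end Pool.Agent.Lib.MP_f3c5e4_al
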