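import Pool.Agent.Lib.MP_f3c5e4_al.Q2.Defs

/-! # The normal subgroup separating a central element -/

set_option autoImplicit false

namespace Pool.Agent.Lib.MP_f3c5e4_al

namespace Q2

open LaurentPolynomial Polynomial

noncomputable section

variable {C : Submodule (ZMod 2) R}

section field

variable {F : Type} [Field F] [Algebra (ZMod 2) F]

/-- `ev a` as a linear map. -/
def evL (a : Fˣ) : R →ₗ[ZMod 2] F := (ev a).toAddMonoidHom.toZModLinearMap 2

@[simp] lemma evL_apply (a : Fˣ) (f : R) : evL a f = ev a f := rfl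

lemma ev_T (a : Fˣ) (n : ℤ) : ev a (T n) = ((a ^ n : Fˣ) : F) := by
  rw [ev, LaurentPolynomial.eval₂_T]

/-- The functional on the centre. -/
def muQ (a : Fˣ) (μ : F →ₗ[ZMod 2] ZMod 2) (hμ : ∀ c ∈ C, μ (ev a c) = 0) : R ⧸ C →ₗ[ZMod 2] ZMod 2 :=
  C.liftQ (μ ∘ₗ evL a) (fun c hc => LinearMap.mem_ker.2 (hμ c hc))

@[simp] lemma muQ_mk (a : Fˣ) (μ : F →ₗ[ZMod 2] ZMod 2) (hμ : ∀ c ∈ C, μ (ev a c) = 0) (f : R) :
    muQ a μ hμ (C.mkQ f) = μ (ev a f) := rfl

/-- The normal subgroup separating a central element. -/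
def zSub (a : Fˣ) (μ : F →ₗ[ZMod 2] ZMod 2) (hμ : ∀ c ∈ C, μ (ev a c) = 0) : Subgroup (Gp C) where
  carrier := {g | ev a g.x = 0 ∧ ev a g.y = 0 ∧ muQ a μ hμ g.z = 0 ∧ a ^ g.k = 1}
  one_mem' := by simp
  mul_mem' := by
    rintro g h ⟨h1, h2, h3, h4⟩ ⟨h1', h2', h3', h4'⟩
    refine ⟨by simp [h1, h1'], by simp [h2, h2'], ?_, by simp [zpow_add, h4, h4']⟩
    rw [mul_z, map_add, map_add, h3, h3', muQ_mk, map_mul, h1]
    simp
  inv_mem' := by
    rintro g ⟨h1, h2, h3, h4⟩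
    refine ⟨by simp [h1], by simp [h2], ?_, by simp [h4]⟩
    rw [inv_z, map_add, map_neg, h3, muQ_mk, map_mul, h1]
    simp

/-- PROOF. For `n` in the subgroup and `g` arbitrary compute the components of `g * n * g⁻¹` and apply `ev a`:
`x`: `g.x + T g.k * n.x - T (g.k + n.k - g.k) * g.x ↦ ev g.x - a ^ n.k * ev g.x = 0`, same for `y`;
`z`: `n.z + [g.x * T (-g.k) * n.y + g.x * g.y - (g.x + T g.k * n.x) * T (-g.k - n.k) * T g.k * g.y] ↦
0 + μ (0 + ev (g.x) ev (g.y) - ev (g.x) * a ^ (-n.k) * ev (g.y)) = 0` (`ev_T`, `a ^ n.k = 1`). See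
`evSub_normal` in Depth.lean. -/
theorem zSub_normal (a : Fˣ) (μ : F →ₗ[ZMod 2] ZMod 2) (hμ : ∀ c ∈ C, μ (ev a c) = 0) :
    (zSub a μ hμ).Normal := ⟨by
  rintro n ⟨h1, h2, h3, h4⟩ g
  have e1 : ((a ^ (g.k + n.k) : Fˣ) : F) * ((a ^ (-g.k) : Fˣ) : F) = 1 := by
    rw [← Units.val_mul, ← zpow_add, show g.k + n.k + -g.k = n.k by ring, h4, Units.val_one]
  have e2 : ((a ^ (-(g.k + n.k)) : Fˣ) : F) * ((a ^ g.k : Fˣ) : F) = 1 := by
    rw [← Units.val_mul, ← zpow_add, show -(g.k + n.k) + g.k = -n.k by ring, zpow_neg, h4,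
      inv_one, Units.val_one]
  refine ⟨?_, ?_, ?_, ?_⟩
  · simp only [mul_x, mul_k, inv_x, map_add, map_mul, map_neg, ev_T, h1]
    linear_combination (-(ev a g.x)) * e1
  · simp only [mul_y, mul_k, inv_y, map_add, map_mul, map_neg, ev_T, h2]
    linear_combination (-(ev a g.y)) * e2
  · have e3 : ev a (g.x * (T (-g.k) * n.y)) = 0 := by
      rw [map_mul, map_mul, h2, mul_zero, mul_zero]
    have e4 : ev a ((g.x + T g.k * n.x) * (T (-(g.k + n.k)) * -(T g.k * g.y))) =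
        -(ev a (g.x * g.y)) := by
      simp only [map_add, map_mul, map_neg, ev_T, h1]
      linear_combination (-(ev a g.x * ev a g.y)) * e2
    have e5 : (g * n * g⁻¹).z = g.z + n.z + C.mkQ (g.x * (T (-g.k) * n.y)) +
        (-g.z + C.mkQ (g.x * g.y)) +
        C.mkQ ((g.x + T g.k * n.x) * (T (-(g.k + n.k)) * -(T g.k * g.y))) := rfl
    show muQ a μ hμ (g * n * g⁻¹).z = 0
    rw [e5, map_add, map_add, map_add, map_add, map_add, map_neg, muQ_mk, muQ_mk, muQ_mk, e3, e4,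
      h3, map_zero, map_neg]
    abel
  · simp only [mul_k, inv_k]
    rw [show g.k + n.k + -g.k = n.k by ring, h4]⟩

/-- PROOF. `index_le` with `φ g = (ev a g.x, ev a g.y, muQ a μ hμ g.z, a ^ g.k)` in
`F × F × ZMod 2 × Subgroup.zpowers a`, of cardinality `|F| * (|F| * (2 * orderOf a))`
(`Nat.card_prod`, `Nat.card_zmod`, `Nat.card_zpowers`); as `evSub_index` in Depth.lean. For the centre:
`(g⁻¹ * h).z = -g.z + [g.x * g.y] + h.z + [-(T (-g.k) * g.x) * (T g.k * h.y)]`. -/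
theorem zSub_index [Finite F] (a : Fˣ) (μ : F →ₗ[ZMod 2] ZMod 2) (hμ : ∀ c ∈ C, μ (ev a c) = 0) :
    (zSub a μ hμ).index ≠ 0 ∧
      (zSub a μ hμ).index ≤ Nat.card F * (Nat.card F * (2 * orderOf a)) := by
  have : Finite Fˣ := inferInstance
  have h := index_le (zSub a μ hμ) (α := F × F × ZMod 2 × Subgroup.zpowers a)
    (fun g => (ev a g.x, ev a g.y, muQ a μ hμ g.z,
      ⟨a ^ g.k, Subgroup.zpow_mem_zpowers a g.k⟩)) (by
    intro g h hgh
    simp only [Prod.mk.injEq, Subtype.mk.injEq] at hgh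
    obtain ⟨h1, h2, h3, h4⟩ := hgh
    have e1 : ((a ^ (-g.k) : Fˣ) : F) * ((a ^ g.k : Fˣ) : F) = 1 := by
      rw [← Units.val_mul, ← zpow_add, neg_add_cancel, zpow_zero, Units.val_one]
    refine ⟨?_, ?_, ?_, ?_⟩
    · simp only [mul_x, inv_x, inv_k, map_add, map_neg, map_mul, h1]
      ring
    · simp only [mul_y, inv_y, inv_k, map_add, map_neg, map_mul, h2, neg_neg]
      ring
    · have e4 : ev a (-(T (-g.k) * g.x) * (T (-(-g.k)) * h.y)) = -(ev a (g.x * g.y)) := by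
        simp only [map_add, map_mul, map_neg, ev_T, neg_neg, h2]
        linear_combination (-(ev a g.x * ev a h.y)) * e1
      have e5 : (g⁻¹ * h).z = (-g.z + C.mkQ (g.x * g.y)) + h.z +
          C.mkQ (-(T (-g.k) * g.x) * (T (-(-g.k)) * h.y)) := rfl
      show muQ a μ hμ (g⁻¹ * h).z = 0
      rw [e5, map_add, map_add, map_add, map_neg, muQ_mk, muQ_mk, e4, map_neg, h3]
      abel
    · simp only [mul_k, inv_k]
      rw [zpow_add, zpow_neg, h4]
      simp)
  rwa [Nat.card_prod, Nat.card_prod, Nat.card_prod, Nat.card_zmod, Nat.card_zpowers] at h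

end field

end

end Q2

end Pool.Agent.Lib.MP_f3c5e4_al
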