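import Pool.Agent.Lib.MP_f3c5e4_al.Q2.GpBA
import Pool.Agent.Lib.MP_f3c5e4_al.Q2.GpAB

/-! # Upper bound for the depth -/

set_option autoImplicit false

namespace Pool.Agent.Lib.MP_f3c5e4_al

namespace Q2

open LaurentPolynomial Polynomial

noncomputable section

variable {C : Submodule (ZMod 2) R}

/-- PROOF. `zSub`, `depth_le`, `GaloisField.card`, `orderOf a ≤ Nat.card Fˣ ≤ 2 ^ M`
(`orderOf_dvd_natCard`). -/
theorem depth_central {M : ℕ} (hM : M ≠ 0) (a : (GaloisField 2 M)ˣ)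
    (μ : GaloisField 2 M →ₗ[ZMod 2] ZMod 2) (hC : ∀ c ∈ C, μ (ev a c) = 0) (h : R)
    (hh : μ (ev a h) ≠ 0) :
    (∃ N : Subgroup (Gp C), N.Normal ∧ N.index ≠ 0 ∧ (⟨0, 0, C.mkQ h, 0⟩ : Gp C) ∉ N) ∧
      depth (⟨0, 0, C.mkQ h, 0⟩ : Gp C) ≤ 2 * (2 ^ M) ^ 3 := by
  have hcard : Nat.card (GaloisField 2 M) = 2 ^ M := GaloisField.card 2 M hM
  have hnot : (⟨0, 0, C.mkQ h, 0⟩ : Gp C) ∉ zSub a μ hC := by
    rintro ⟨-, -, h3, -⟩
    exact hh h3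
  refine ⟨⟨zSub a μ hC, zSub_normal a μ hC, (zSub_index a μ hC).1, hnot⟩, ?_⟩
  refine depth_le (zSub a μ hC) (zSub_normal a μ hC) (zSub_index a μ hC).1 hnot
    ((zSub_index a μ hC).2.trans ?_)
  have h4 : orderOf a ≤ Nat.card (GaloisField 2 M)ˣ :=
    Nat.le_of_dvd Nat.card_pos (orderOf_dvd_natCard a)
  rw [Nat.card_units, hcard] at h4
  rw [hcard]
  have h5 : orderOf a ≤ 2 ^ M := h4.trans (Nat.sub_le _ _)
  calc 2 ^ M * (2 ^ M * (2 * orderOf a)) ≤ 2 ^ M * (2 ^ M * (2 * 2 ^ M)) := by gcongr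
    _ = 2 * (2 ^ M) ^ 3 := by ring

/-- PROOF. If `toX g ≠ 1`: `uniform_bound` (Main.lean) and `depth_comap_le` give
`depth g ≤ 4 * (2 * r + 1) ^ 2 ≤ 4 * (n i + 1) ^ 2 ≤ 4 * (2 ^ m i) ^ 2`. Same for `toY g`. Otherwise
`g = ⟨0, 0, C.mkQ h, 0⟩` with `Su (2 * r) h`, so `Su (n i) h`, and `h ∉ C` as `g ≠ 1`
(`Submodule.Quotient.mk_eq_zero`); `Spec.upper`, `depth_central`. -/
theorem depth_le_spec {n m : ℕ → ℕ} {K : ℕ} (hS : Spec C n m K) (hm : ∀ i, m i ≠ 0)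
    (hnm : ∀ i, n i + 1 ≤ 2 ^ (m i)) {g : Gp C} {r i : ℕ} (hg : BdG r g) (h1 : g ≠ 1)
    (hr : 2 * r ≤ n i) :
    (∃ N : Subgroup (Gp C), N.Normal ∧ N.index ≠ 0 ∧ g ∉ N) ∧ depth g ≤ 4 * (2 ^ (m i)) ^ 3 := by
  obtain ⟨hX, hY, h, hh, hz⟩ := hg
  have hq1 : 1 ≤ 2 ^ m i := Nat.one_le_two_pow
  have hrq : 2 * r + 1 ≤ 2 ^ m i := le_trans (by omega) (hnm i)
  have hb : 4 * (2 * r + 1) ^ 2 ≤ 4 * (2 ^ (m i)) ^ 3 := by
    refine Nat.mul_le_mul_left _ ((Nat.pow_le_pow_left hrq 2).trans ?_)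
    exact Nat.pow_le_pow_right hq1 (by norm_num)
  by_cases h2 : toX g = 1
  · by_cases h3 : toY g = 1
    · have ex : g.x = 0 := congrArg Lamp.f h2
      have ek : g.k = 0 := congrArg Lamp.k h2
      have ey : g.y = 0 := congrArg Lamp.f h3
      have hg' : g = ⟨0, 0, C.mkQ h, 0⟩ := by
        ext1
        · exact ex
        · exact ey
        · exact hz
        · exact ek
      have hC : h ∉ C := by
        intro hc
        apply h1
        rw [hg']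
        ext1
        · rfl
        · rfl
        · show C.mkQ h = 0
          exact (Submodule.Quotient.mk_eq_zero C).2 hc
        · rfl
      obtain ⟨a, μ, k1, k2⟩ := hS.upper i h (hh.mono hr) hC
      obtain ⟨k3, k4⟩ := depth_central (hm i) a μ k1 h k2
      rw [hg']
      exact ⟨k3, k4.trans (Nat.mul_le_mul_right _ (by norm_num))⟩
    · obtain ⟨k1, k2⟩ := uniform_bound hY h3
      obtain ⟨k3, k4⟩ := depth_comap_le toY k1
      exact ⟨k3, (k4.trans k2).trans hb⟩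
  · obtain ⟨k1, k2⟩ := uniform_bound hX h2
    obtain ⟨k3, k4⟩ := depth_comap_le toX k1
    exact ⟨k3, (k4.trans k2).trans hb⟩

end

end Q2

end Pool.Agent.Lib.MP_f3c5e4_al
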