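import Pool.Agent.Lib.MP_f3c5e4_al.Q2.Defs

/-! # The two ideals of a normal subgroup -/

set_option autoImplicit false

namespace Pool.Agent.Lib.MP_f3c5e4_al

namespace Q2

open LaurentPolynomial Polynomial

noncomputable section

variable {C : Submodule (ZMod 2) R}

lemma toX_surj : Function.Surjective (toX : Gp C →* Lamp) := fun g => ⟨⟨g.f, 0, 0, g.k⟩, rfl⟩

lemma toY_surj : Function.Surjective (toY : Gp C →* Lamp) := fun g => ⟨⟨0, g.f, 0, -g.k⟩, by
  ext1 <;> simp⟩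

/-- The ideal of first components. -/
def idX (N : Subgroup (Gp C)) (hN : N.Normal) : Ideal R :=
  idealOf (N.map toX) (hN.map toX toX_surj)

/-- The ideal of second components. -/
def idY (N : Subgroup (Gp C)) (hN : N.Normal) : Ideal R :=
  idealOf (N.map toY) (hN.map toY toY_surj)

/-- PROOF. `mem_idealOf`, `Subgroup.mem_map`, `Lamp.ext_iff`. -/
theorem mem_idX {N : Subgroup (Gp C)} {hN : N.Normal} {h : R} :
    h ∈ idX N hN ↔ ∃ g ∈ N, g.x = h ∧ g.k = 0 := by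
  unfold idX
  rw [mem_idealOf, Subgroup.mem_map]
  constructor
  · rintro ⟨g, hg, hgh⟩
    exact ⟨g, hg, congrArg Lamp.f hgh, congrArg Lamp.k hgh⟩
  · rintro ⟨g, hg, h1, h2⟩
    refine ⟨g, hg, ?_⟩
    ext1
    · exact h1
    · exact h2

/-- PROOF. `mem_idealOf`, `Subgroup.mem_map`, `Lamp.ext_iff`, `neg_eq_zero`. -/
theorem mem_idY {N : Subgroup (Gp C)} {hN : N.Normal} {h : R} :
    h ∈ idY N hN ↔ ∃ g ∈ N, g.y = h ∧ g.k = 0 := by
  unfold idY
  rw [mem_idealOf, Subgroup.mem_map]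
  constructor
  · rintro ⟨g, hg, hgh⟩
    have h1 : -g.k = 0 := congrArg Lamp.k hgh
    exact ⟨g, hg, congrArg Lamp.f hgh, neg_eq_zero.1 h1⟩
  · rintro ⟨g, hg, h1, h2⟩
    refine ⟨g, hg, ?_⟩
    ext1
    · exact h1
    · show -g.k = 0
      rw [h2, neg_zero]

/-- PROOF. `finite_quot` (Arith.lean); the index of the image under a surjection divides the index
(`Subgroup.index_map_dvd`). -/
theorem finite_idX (N : Subgroup (Gp C)) (hN : N.Normal) (h0 : N.index ≠ 0) :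
    Finite (R ⧸ idX N hN) := by
  refine finite_quot _ _ fun h => h0 ?_
  have h1 := N.index_map_dvd (f := (toX : Gp C →* Lamp)) toX_surj
  rw [h, zero_dvd_iff] at h1
  exact h1

/-- PROOF. As `finite_idX`. -/
theorem finite_idY (N : Subgroup (Gp C)) (hN : N.Normal) (h0 : N.index ≠ 0) :
    Finite (R ⧸ idY N hN) := by
  refine finite_quot _ _ fun h => h0 ?_
  have h1 := N.index_map_dvd (f := (toY : Gp C →* Lamp)) toY_surj
  rw [h, zero_dvd_iff] at h1
  exact h1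

/-- PROOF. `g ∈ N` with `g.x = h`, `g.k = 0`; the commutator of `g` with `gb = ⟨0, 1, 0, 0⟩`,
`g * gb * g⁻¹ * gb⁻¹ = ⟨0, 0, C.mkQ h, 0⟩` (up to sign, which does not matter in characteristic 2, but
compute it), lies in `N` as `N` is normal. -/
theorem central_of_idX {N : Subgroup (Gp C)} {hN : N.Normal} {h : R} (hh : h ∈ idX N hN) :
    (⟨0, 0, C.mkQ h, 0⟩ : Gp C) ∈ N := by
  obtain ⟨g, hg, hx, hk⟩ := mem_idX.1 hh
  have h1 : g * gb * g⁻¹ * gb⁻¹ ∈ N := by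
    have h2 : gb * g⁻¹ * gb⁻¹ ∈ N := hN.conj_mem _ (N.inv_mem hg) gb
    have h3 := N.mul_mem hg h2
    have h4 : g * (gb * g⁻¹ * gb⁻¹) = g * gb * g⁻¹ * gb⁻¹ := by group
    rwa [h4] at h3
  have h5 : g * gb * g⁻¹ * gb⁻¹ = (⟨0, 0, C.mkQ h, 0⟩ : Gp C) := by
    ext1
    · simp [gb, hk, hx]
    · simp [gb, hk]
    · simp only [mul_z, inv_z, inv_y, inv_k, mul_x, mul_k, inv_x, gb, hk, hx, neg_zero, T_zero,
        one_mul, mul_one, mul_zero, add_zero, zero_mul, map_zero, add_neg_cancel]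
      rw [show h * -g.y = -(h * g.y) by ring, map_neg]
      abel
    · simp [gb, hk]
  rwa [h5] at h1

/-- PROOF. As `central_of_idX` with `ga = ⟨1, 0, 0, 0⟩` and `g.y = h`:
`ga * g * ga⁻¹ * g⁻¹ = ⟨0, 0, C.mkQ h, 0⟩`. -/
theorem central_of_idY {N : Subgroup (Gp C)} {hN : N.Normal} {h : R} (hh : h ∈ idY N hN) :
    (⟨0, 0, C.mkQ h, 0⟩ : Gp C) ∈ N := by
  obtain ⟨g, hg, hy, hk⟩ := mem_idY.1 hh
  have h1 : ga * g * ga⁻¹ * g⁻¹ ∈ N :=
    N.mul_mem (hN.conj_mem _ hg ga) (N.inv_mem hg)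
  have h5 : ga * g * ga⁻¹ * g⁻¹ = (⟨0, 0, C.mkQ h, 0⟩ : Gp C) := by
    ext1
    · simp [ga, hk]
    · simp [ga, hk, hy]
    · simp only [mul_z, inv_z, inv_y, inv_k, mul_x, mul_k, inv_x, ga, hk, hy, neg_zero, T_zero,
        one_mul, mul_one, mul_zero, add_zero, map_zero, zero_add]
      rw [show (1 + g.x + -1) * -h = -(g.x * h) by ring, map_neg]
      abel
    · simp [ga, hk]
  rwa [h5] at h1

end

end Q2

end Pool.Agent.Lib.MP_f3c5e4_al
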