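import Pool.Agent.Lib.MP_f3c5e4_al.Q2.GpCA

/-! # Lower bound for the index -/

set_option autoImplicit false

namespace Pool.Agent.Lib.MP_f3c5e4_al

namespace Q2

open LaurentPolynomial Polynomial

noncomputable section

variable {C : Submodule (ZMod 2) R}

/-- PROOF. As `card_mul_order_le` in Arith.lean. Write `I = idX N hN`, `J = idY N hN`. The map
`(R ⧸ I) × (R ⧸ J) × Fin (ordT I) → Gp C ⧸ N`, `(p, q, j) ↦ [⟨p.out, q.out, 0, j⟩]` is injective: if
`w = ⟨p.out, q.out, 0, j⟩⁻¹ * ⟨p'.out, q'.out, 0, j'⟩ ∈ N`, then `w.k = j' - j`,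
`w.x = T (-j) * (p'.out - p.out)`, `w.y = T j * (q'.out - q.out)`. The commutator
`w * ga * w⁻¹ * ga⁻¹ ∈ N` has `x = T w.k - 1` and `k = 0`, so `T w.k - 1 ∈ I` and `ordT I ∣ w.k`, hence
`j = j'`; then `w.k = 0`, so `w.x ∈ I`, `w.y ∈ J`, and `p = p'`, `q = q'`. -/
theorem index_ge (N : Subgroup (Gp C)) (hN : N.Normal) (h0 : N.index ≠ 0) :
    Nat.card (R ⧸ idX N hN) * (Nat.card (R ⧸ idY N hN) * ordT (idX N hN)) ≤ N.index := by
  have : N.FiniteIndex := ⟨h0⟩
  have : Finite (Gp C ⧸ N) := inferInstance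
  have := finite_idX N hN h0
  have := finite_idY N hN h0
  set I := idX N hN with hI
  set J := idY N hN with hJ
  set x := Units.map (Ideal.Quotient.mk I).toMonoidHom Tu with hx
  have hxo : ordT I = orderOf x := rfl
  rw [hxo]
  have hxpow : ∀ n : ℤ, ((x ^ n : (R ⧸ I)ˣ) : R ⧸ I) = Ideal.Quotient.mk I (T n) := by
    intro n
    rw [hx, ← map_zpow, Units.coe_map, Tu_zpow]
    rfl
  have h1 : ∀ q : R ⧸ I, Ideal.Quotient.mk I q.out = q := fun q => Quotient.out_eq q
  have h2 : ∀ q : R ⧸ J, Ideal.Quotient.mk J q.out = q := fun q => Quotient.out_eq q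
  have hinj : Function.Injective (fun q : (R ⧸ I) × (R ⧸ J) × Fin (orderOf x) =>
      ((⟨q.1.out, q.2.1.out, 0, ((q.2.2 : ℕ) : ℤ)⟩ : Gp C) : Gp C ⧸ N)) := by
    rintro ⟨r, s, j⟩ ⟨r', s', j'⟩ h
    simp only [QuotientGroup.eq] at h
    set w : Gp C := (⟨r.out, s.out, 0, ((j : ℕ) : ℤ)⟩ : Gp C)⁻¹ * ⟨r'.out, s'.out, 0, ((j' : ℕ) : ℤ)⟩
      with hw
    have hwk : w.k = (j' : ℤ) - j := by
      rw [hw]
      simp only [mul_k, inv_k]
      ring
    have hwx : w.x = T (-(j : ℤ)) * (r'.out - r.out) := by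
      rw [hw]
      simp only [mul_x, inv_x, inv_k]
      ring
    have hwy : w.y = T (j : ℤ) * (s'.out - s.out) := by
      rw [hw]
      simp only [mul_y, inv_y, inv_k, neg_neg]
      ring
    have hcN : w * ga * w⁻¹ * (ga : Gp C)⁻¹ ∈ N := by
      have e : w * ga * w⁻¹ * (ga : Gp C)⁻¹ = w * (ga * w⁻¹ * (ga : Gp C)⁻¹) := by group
      rw [e]
      exact N.mul_mem h (hN.conj_mem _ (N.inv_mem h) _)
    have hmem : T w.k - 1 ∈ I := by
      rw [hI]
      refine mem_idX.2 ⟨_, hcN, ?_, ?_⟩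
      · simp only [mul_x, mul_k, inv_x, inv_k, ga, add_zero, neg_zero, T_zero, mul_one]
        have e1 : T (R := ZMod 2) w.k * -(T (-w.k) * w.x) = - w.x := by
          rw [mul_neg, T_T_neg]
        rw [e1]
        simp
        ring
      · simp [ga]
    rw [← Ideal.Quotient.eq_zero_iff_mem, map_sub, map_one, sub_eq_zero, ← hxpow] at hmem
    have hone : x ^ w.k = 1 := Units.ext hmem
    have hdvd : (orderOf x : ℤ) ∣ w.k := orderOf_dvd_iff_zpow_eq_one.2 hone
    have hjj : (j' : ℤ) - j = 0 := by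
      rw [hwk] at hdvd
      apply Int.eq_zero_of_abs_lt_dvd hdvd
      have := j.2
      have := j'.2
      rw [abs_lt]
      constructor <;> omega
    have hj : j = j' := Fin.ext (by omega)
    subst hj
    have hk0 : w.k = 0 := by rw [hwk]; ring
    have hxI : w.x ∈ I := by
      rw [hI]
      exact mem_idX.2 ⟨w, h, rfl, hk0⟩
    have hyJ : w.y ∈ J := by
      rw [hJ]
      exact mem_idY.2 ⟨w, h, rfl, hk0⟩
    have hr : r = r' := by
      rw [hwx] at hxI
      have h3 := I.mul_mem_left (T (j : ℤ)) hxI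
      rw [T_T_neg, ← Ideal.Quotient.eq_zero_iff_mem, map_sub, sub_eq_zero, h1, h1] at h3
      exact h3.symm
    have hs : s = s' := by
      rw [hwy] at hyJ
      have h3 := J.mul_mem_left (T (-(j : ℤ))) hyJ
      rw [T_neg_T, ← Ideal.Quotient.eq_zero_iff_mem, map_sub, sub_eq_zero, h2, h2] at h3
      exact h3.symm
    rw [hr, hs]
  have := Nat.card_le_card_of_injective _ hinj
  rw [Nat.card_prod, Nat.card_prod, Nat.card_eq_fintype_card (α := Fin (orderOf x)),
    Fintype.card_fin] at this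
  exact this

/-- PROOF. For `c ∈ C` we have `C.mkQ (e - c) = C.mkQ e`, so `e - c ∉ idX N hN`, `e - c ∉ idY N hN` by
`central_of_idX`, `central_of_idY`; `he` for both ideals and `index_ge`. -/
theorem index_lower {q : ℕ} {e : R}
    (he : ∀ I : Ideal R, Finite (R ⧸ I) → (∀ c ∈ C, e - c ∉ I) →
      q ≤ Nat.card (R ⧸ I) ∧ q ≤ ordT I + 1)
    (N : Subgroup (Gp C)) (hN : N.Normal) (h0 : N.index ≠ 0)
    (hnot : (⟨0, 0, C.mkQ e, 0⟩ : Gp C) ∉ N) : q * (q * (q - 1)) ≤ N.index := by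
  have hmk : ∀ c ∈ C, C.mkQ (e - c) = C.mkQ e := by
    intro c hc
    rw [map_sub, sub_eq_self]
    exact (Submodule.Quotient.mk_eq_zero C).2 hc
  have hX := he (idX N hN) (finite_idX N hN h0) (fun c hc hcon => hnot (by
    rw [← hmk c hc]
    exact central_of_idX hcon))
  have hY := he (idY N hN) (finite_idY N hN h0) (fun c hc hcon => hnot (by
    rw [← hmk c hc]
    exact central_of_idY hcon))
  refine le_trans ?_ (index_ge N hN h0)
  exact Nat.mul_le_mul hX.1 (Nat.mul_le_mul hY.1 (by omega))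

end

end Q2

end Pool.Agent.Lib.MP_f3c5e4_al
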