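import Pool.Agent.Lib.MP_f3c5e4_al.Q2.Defs

/-! # Word lengths -/

set_option autoImplicit false

namespace Pool.Agent.Lib.MP_f3c5e4_al

namespace Q2

open LaurentPolynomial Polynomial

noncomputable section

variable {C : Submodule (ZMod 2) R}

/-- PROOF. Copy `lamp_short` in Lamp.lean (Horner). -/
theorem x_short (S : Finset (Gp C)) (c : ℕ) (ha : ga ∈ ball S c) (ht : gt ∈ ball S c) :
    ∀ (n : ℕ) (p : (ZMod 2)[X]), p.natDegree ≤ n →
      (⟨toLaurent p, 0, 0, 0⟩ : Gp C) ∈ ball S (c * (3 * n + 1)) := by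
  have hC : ∀ a : ZMod 2, (⟨toLaurent (Polynomial.C a), 0, 0, 0⟩ : Gp C) ∈ ball S c := by
    intro a
    fin_cases a
    · have : (⟨toLaurent (Polynomial.C 0), 0, 0, 0⟩ : Gp C) = 1 := by
        ext1 <;> simp
      show (⟨toLaurent (Polynomial.C 0), 0, 0, 0⟩ : Gp C) ∈ ball S c
      rw [this]; exact one_mem_ball S c
    · have : (⟨toLaurent (Polynomial.C 1), 0, 0, 0⟩ : Gp C) = ga := by
        ext1 <;> simp [ga]
      show (⟨toLaurent (Polynomial.C 1), 0, 0, 0⟩ : Gp C) ∈ ball S c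
      rw [this]; exact ha
  intro n
  induction n with
  | zero =>
    intro p hp
    rw [Polynomial.eq_C_of_natDegree_le_zero hp]
    simpa using hC _
  | succ n ih =>
    intro p hp
    have h1 := ih p.divX (by rw [Polynomial.natDegree_divX_eq_natDegree_tsub_one]; omega)
    have h2 := hC (p.coeff 0)
    have e : (⟨toLaurent p, 0, 0, 0⟩ : Gp C) =
        ⟨toLaurent (Polynomial.C (p.coeff 0)), 0, 0, 0⟩ *
          (gt * ⟨toLaurent p.divX, 0, 0, 0⟩ * gt⁻¹) := by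
      ext1
      · conv_lhs => rw [← Polynomial.divX_mul_X_add p]
        simp [gt]
        ring
      · simp [gt]
      · simp [gt]
      · simp [gt]
    rw [e]
    have h3 := mul_mem_ball S h2 (mul_mem_ball S (mul_mem_ball S ht h1) (inv_mem_ball S ht))
    refine ball_mono S ?_ h3
    ring_nf
    omega

/-- PROOF. `u := gt⁻¹ * ⟨toLaurent p, 0, 0, 0⟩ * gt = ⟨T (-1) * toLaurent p, 0, 0, 0⟩` has length at most
`c * (3 * n + 3)` and `u * gb * u⁻¹ * gb⁻¹ = ⟨0, 0, C.mkQ (T (-1) * toLaurent p), 0⟩`. -/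
theorem z_short (S : Finset (Gp C)) (c : ℕ) (ha : ga ∈ ball S c) (hb : gb ∈ ball S c)
    (ht : gt ∈ ball S c) (n : ℕ) (p : (ZMod 2)[X]) (hp : p.natDegree ≤ n) :
    (⟨0, 0, C.mkQ (T (-1) * toLaurent p), 0⟩ : Gp C) ∈ ball S (c * (6 * n + 8)) := by
  have h1 := x_short S c ha ht n p hp
  have e1 : gt⁻¹ * (⟨toLaurent p, 0, 0, 0⟩ : Gp C) * gt =
      ⟨T (-1) * toLaurent p, 0, 0, 0⟩ := by
    ext1
    · simp [gt]
    · simp [gt]
    · simp [gt]
    · simp [gt]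
  have h2 := mul_mem_ball S (mul_mem_ball S (inv_mem_ball S ht) h1) ht
  rw [e1] at h2
  have e2 : (⟨T (-1) * toLaurent p, 0, 0, 0⟩ : Gp C) * gb *
      (⟨T (-1) * toLaurent p, 0, 0, 0⟩ : Gp C)⁻¹ * gb⁻¹ =
        ⟨0, 0, C.mkQ (T (-1) * toLaurent p), 0⟩ := by
    ext1
    · simp [gb]
    · simp [gb]
    · simp [gb]
    · simp [gb]
  have h3 := mul_mem_ball S (mul_mem_ball S (mul_mem_ball S h2 hb) (inv_mem_ball S h2))
    (inv_mem_ball S hb)
  rw [e2] at h3
  refine ball_mono S ?_ h3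
  ring_nf
  omega

end

end Q2

end Pool.Agent.Lib.MP_f3c5e4_al
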