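import Pool.Agent.Lib.MP_f3c5e4_al.Q2.Defs

/-! # Generation, not virtually nilpotent -/

set_option autoImplicit false

namespace Pool.Agent.Lib.MP_f3c5e4_al

namespace Q2

open LaurentPolynomial Polynomial

noncomputable section

variable {C : Submodule (ZMod 2) R}

private lemma gt_zpow (n : ℤ) : (gt : Gp C) ^ n = ⟨0, 0, 0, n⟩ := by
  induction n using Int.induction_on with
  | zero => rfl
  | succ n ih =>
    rw [zpow_add_one, ih]
    ext1 <;> simp [gt]
  | pred n ih =>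
    rw [zpow_sub_one, ih]
    ext1
    · simp [gt]
    · simp [gt]
    · simp [gt]
    · simp only [mul_k, inv_k, gt]
      ring

/-- PROOF. As `lamp_closure` in Main.lean: the closure contains all `⟨f, 0, 0, 0⟩`, `⟨0, f, 0, 0⟩`
(`LaurentPolynomial.induction_on'`, conjugation by powers of `gt`), the commutators
`⟨0, 0, C.mkQ f, 0⟩`, and `g` is a product of elements of these kinds and a power of `gt`. -/
theorem gp_closure : Subgroup.closure ({ga, gb, gt} : Set (Gp C)) = ⊤ := by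
  set K := Subgroup.closure ({ga, gb, gt} : Set (Gp C)) with hK
  have ha : ga ∈ K := Subgroup.subset_closure (by simp)
  have hb : gb ∈ K := Subgroup.subset_closure (by simp)
  have ht : gt ∈ K := Subgroup.subset_closure (by simp)
  have hx : ∀ f : R, (⟨f, 0, 0, 0⟩ : Gp C) ∈ K := by
    intro f
    induction f using LaurentPolynomial.induction_on' with
    | add p q hp hq =>
      have : (⟨p + q, 0, 0, 0⟩ : Gp C) = ⟨p, 0, 0, 0⟩ * ⟨q, 0, 0, 0⟩ := by ext1 <;> simp
      rw [this]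
      exact K.mul_mem hp hq
    | C_mul_T n a =>
      have h1 : (⟨LaurentPolynomial.C a * T n, 0, 0, 0⟩ : Gp C) =
          gt ^ n * ⟨LaurentPolynomial.C a, 0, 0, 0⟩ * (gt ^ n)⁻¹ := by
        rw [gt_zpow]
        ext1
        · simp only [mul_x, mul_k, inv_x, zero_add, add_zero, mul_zero, neg_zero]
          exact mul_comm _ _
        · simp
        · simp
        · simp
      rw [h1]
      refine K.mul_mem (K.mul_mem (K.zpow_mem ht n) ?_) (K.inv_mem (K.zpow_mem ht n))
      fin_cases a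
      · have : (⟨LaurentPolynomial.C (0 : ZMod 2), 0, 0, 0⟩ : Gp C) = 1 := by ext1 <;> simp
        exact this ▸ K.one_mem
      · have : (⟨LaurentPolynomial.C (1 : ZMod 2), 0, 0, 0⟩ : Gp C) = ga := by
          ext1 <;> simp [ga]
        exact this ▸ ha
  have hy : ∀ f : R, (⟨0, f, 0, 0⟩ : Gp C) ∈ K := by
    intro f
    induction f using LaurentPolynomial.induction_on' with
    | add p q hp hq =>
      have : (⟨0, p + q, 0, 0⟩ : Gp C) = ⟨0, p, 0, 0⟩ * ⟨0, q, 0, 0⟩ := by ext1 <;> simp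
      rw [this]
      exact K.mul_mem hp hq
    | C_mul_T n a =>
      have h1 : (⟨0, LaurentPolynomial.C a * T n, 0, 0⟩ : Gp C) =
          gt ^ (-n) * ⟨0, LaurentPolynomial.C a, 0, 0⟩ * (gt ^ (-n))⁻¹ := by
        rw [gt_zpow]
        ext1
        · simp
        · simp only [mul_y, mul_k, inv_y, zero_add, add_zero, mul_zero, neg_zero, neg_neg]
          exact mul_comm _ _
        · simp
        · simp
      rw [h1]
      refine K.mul_mem (K.mul_mem (K.zpow_mem ht (-n)) ?_) (K.inv_mem (K.zpow_mem ht (-n)))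
      fin_cases a
      · have : (⟨0, LaurentPolynomial.C (0 : ZMod 2), 0, 0⟩ : Gp C) = 1 := by ext1 <;> simp
        exact this ▸ K.one_mem
      · have : (⟨0, LaurentPolynomial.C (1 : ZMod 2), 0, 0⟩ : Gp C) = gb := by
          ext1 <;> simp [gb]
        exact this ▸ hb
  have hz : ∀ f : R, (⟨0, 0, C.mkQ f, 0⟩ : Gp C) ∈ K := by
    intro f
    have h1 : (⟨0, 0, C.mkQ f, 0⟩ : Gp C) =
        ⟨f, 0, 0, 0⟩ * ⟨0, 1, 0, 0⟩ * (⟨f, 0, 0, 0⟩)⁻¹ * (⟨0, 1, 0, 0⟩)⁻¹ := by
      ext1 <;> simp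
    rw [h1]
    exact K.mul_mem (K.mul_mem (K.mul_mem (hx f) (hy 1)) (K.inv_mem (hx f))) (K.inv_mem (hy 1))
  rw [eq_top_iff]
  intro g _
  obtain ⟨h, hh⟩ := C.mkQ_surjective g.z
  have h2 : g = ⟨0, g.y, 0, 0⟩ * ⟨g.x, 0, 0, 0⟩ * ⟨0, 0, C.mkQ h, 0⟩ * gt ^ g.k := by
    rw [gt_zpow, hh]
    ext1 <;> simp
  rw [h2]
  exact K.mul_mem (K.mul_mem (K.mul_mem (hy _) (hx _)) (hz _)) (K.zpow_mem ht _)

theorem gp_fg : Group.FG (Gp C) := by
  rw [Group.fg_iff]
  exact ⟨{ga, gb, gt}, gp_closure, by simp⟩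

/-- PROOF. If `K ≤ Gp C` is nilpotent of finite index, then `K.map toX` is nilpotent
(`Group.nilpotent_of_surjective` with `toX.subgroupMap K`) of finite index
(`Subgroup.index_map_dvd`, `toX` is surjective); `lamp_not_vnilp`. -/
theorem gp_not_vnilp : ¬ ∃ K : Subgroup (Gp C), K.index ≠ 0 ∧ Group.IsNilpotent K := by
  rintro ⟨K, hK, hnil⟩
  refine lamp_not_vnilp ⟨K.map toX, ?_, ?_⟩
  · have hs : Function.Surjective (toX : Gp C →* Lamp) := fun g => ⟨⟨g.f, 0, 0, g.k⟩, rfl⟩
    have h1 := Subgroup.index_map_dvd K hs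
    intro h0
    rw [h0] at h1
    exact hK (zero_dvd_iff.1 h1)
  · exact Group.nilpotent_of_surjective ((toX : Gp C →* Lamp).subgroupMap K)
      ((toX : Gp C →* Lamp).subgroupMap_surjective K)

end

end Q2

end Pool.Agent.Lib.MP_f3c5e4_al
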