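import Pool.Agent.Lib.MP_f3c5e4_al.Q2.GpBB
import Pool.Agent.Lib.MP_f3c5e4_al.Q2.GpCB
import Pool.Agent.Lib.MP_f3c5e4_al.Q2.GpDA
import Pool.Agent.Lib.MP_f3c5e4_al.Q2.GpDB

/-! # Growth bounds for `Gp C` -/

set_option autoImplicit false

namespace Pool.Agent.Lib.MP_f3c5e4_al

namespace Q2

open LaurentPolynomial Polynomial

noncomputable section

variable {C : Submodule (ZMod 2) R}

/-- PROOF. `exists_BdG` gives `r`, `hn` gives `i` with `2 * r ≤ n i`; `depth_le_spec`. -/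
theorem gp_rf {n m : ℕ → ℕ} {K : ℕ} (hS : Spec C n m K) (hm : ∀ i, m i ≠ 0)
    (hnm : ∀ i, n i + 1 ≤ 2 ^ (m i)) (hn : ∀ r, ∃ i, r ≤ n i) (g : Gp C) (hg : g ≠ 1) :
    ∃ N : Subgroup (Gp C), N.Normal ∧ N.index ≠ 0 ∧ g ∉ N := by
  obtain ⟨r, hr⟩ := exists_BdG g
  obtain ⟨i, hi⟩ := hn (2 * r)
  exact (depth_le_spec hS hm hnm hr hg hi).1

/-- PROOF. `exists_EG` (with `E' = 2 * E`) and `depth_le_spec`. -/
theorem depth_ball {n m : ℕ → ℕ} {K : ℕ} (hS : Spec C n m K) (hm : ∀ i, m i ≠ 0)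
    (hnm : ∀ i, n i + 1 ≤ 2 ^ (m i)) (S : Finset (Gp C)) :
    ∃ E : ℕ, 0 < E ∧ ∀ i r, E * r ≤ n i → ∀ g ∈ ball S r, g ≠ 1 → depth g ≤ 4 * (2 ^ (m i)) ^ 3 := by
  obtain ⟨E, hE, h⟩ := exists_EG S
  refine ⟨2 * E, by omega, fun i r hr g hg h1 => ?_⟩
  exact (depth_le_spec hS hm hnm (h r g hg) h1 (by rw [← mul_assoc]; exact hr)).2

theorem rf_le' {G : Type} [Group G] {S : Finset G} {r B : ℕ}
    (h : ∀ g ∈ ball S r, g ≠ 1 → depth g ≤ B) : rfGrowth S r ≤ B := by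
  apply csSup_le'
  rintro d ⟨g, hg, hg1, rfl⟩
  exact h g hg hg1

theorem le_rf' {G : Type} [Group G] {S : Finset G} {r B : ℕ}
    (h : ∀ g ∈ ball S r, g ≠ 1 → depth g ≤ B) {g : G} (hg : g ∈ ball S r) (h1 : g ≠ 1) :
    depth g ≤ rfGrowth S r := by
  apply le_csSup
  · refine ⟨B, ?_⟩
    rintro d ⟨g, hg, hg1, rfl⟩
    exact h g hg hg1
  · exact ⟨g, hg, h1, rfl⟩

theorem rf_zero {G : Type} [Group G] (S : Finset G) : rfGrowth S 0 = 0 := by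
  apply Nat.le_zero.1
  apply rf_le'
  rintro g ⟨l, hl, _, rfl⟩ h1
  have : l = [] := by simpa using hl
  subst this
  exact absurd rfl h1

theorem rf_mono {n m : ℕ → ℕ} {K : ℕ} (hS : Spec C n m K) (hm : ∀ i, m i ≠ 0)
    (hnm : ∀ i, n i + 1 ≤ 2 ^ (m i)) (hn : ∀ r, ∃ i, r ≤ n i) (S : Finset (Gp C)) :
    Monotone (rfGrowth S) := by
  obtain ⟨E, _, h⟩ := depth_ball hS hm hnm S
  intro r s hrs
  obtain ⟨i, hi⟩ := hn (E * s)
  apply rf_le'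
  intro g hg h1
  exact le_rf' (h i s hi) (ball_mono S hrs hg) h1

/-- The element `⟨0, 0, [T (-1) p], 0⟩` of `Spec.lower` has small length and large depth.
PROOF. `exists_mem_ball` for `ga, gb, gt` gives `c`; take `E = c * (6 * K + 8)` (plus `1`); `z_short` with
`n := K * n i`, `c * (6 * (K * n i) + 8) ≤ E * n i` as `1 ≤ n i`; the element is not `1` as
`T (-1) * toLaurent p ∉ C`; `le_rf'` with the bound from `depth_ball`; `le_depth` with `gp_rf` and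
`index_lower`. -/
theorem growth_lower {n m : ℕ → ℕ} {K : ℕ} (hS : Spec C n m K) (hm : ∀ i, m i ≠ 0)
    (hnm : ∀ i, n i + 1 ≤ 2 ^ (m i)) (hn : ∀ r, ∃ i, r ≤ n i) (hn1 : ∀ i, 1 ≤ n i)
    (S : Finset (Gp C)) (hcl : Subgroup.closure (S : Set (Gp C)) = ⊤) :
    ∃ E : ℕ, 0 < E ∧ ∀ i, 2 ^ (m i) * (2 ^ (m i) * (2 ^ (m i) - 1)) ≤ rfGrowth S (E * n i) := by
  obtain ⟨c1, hc1⟩ := exists_mem_ball S hcl (ga : Gp C)
  obtain ⟨c2, hc2⟩ := exists_mem_ball S hcl (gb : Gp C)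
  obtain ⟨c3, hc3⟩ := exists_mem_ball S hcl (gt : Gp C)
  set c := c1 + c2 + c3 + 1 with hc
  refine ⟨c * (6 * K + 8), Nat.mul_pos (by omega) (by omega), fun i => ?_⟩
  obtain ⟨p, hp, hpC, hI⟩ := hS.lower i
  have h1 := z_short S c (ball_mono S (by omega) hc1) (ball_mono S (by omega) hc2)
    (ball_mono S (by omega) hc3) (K * n i) p hp
  have h2 : c * (6 * (K * n i) + 8) ≤ c * (6 * K + 8) * n i := by
    rw [mul_assoc]
    refine Nat.mul_le_mul_left c ?_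
    have h3 := hn1 i
    have h4 : 8 * 1 ≤ 8 * n i := Nat.mul_le_mul_left 8 h3
    calc 6 * (K * n i) + 8 ≤ 6 * (K * n i) + 8 * n i := by omega
      _ = (6 * K + 8) * n i := by ring
  have h3 := ball_mono S h2 h1
  have h4 : (⟨0, 0, C.mkQ (T (-1) * toLaurent p), 0⟩ : Gp C) ≠ 1 := fun h =>
    hpC ((Submodule.Quotient.mk_eq_zero C).1 (congrArg Gp.z h))
  obtain ⟨E', -, h'⟩ := depth_ball hS hm hnm S
  obtain ⟨j, hj⟩ := hn (E' * (c * (6 * K + 8) * n i))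
  refine le_trans ?_ (le_rf' (h' j _ hj) h3 h4)
  exact le_depth (gp_rf hS hm hnm hn _ h4) fun N hN h0 hnot => index_lower hI N hN h0 hnot

/-- PROOF. `depth_ball`, `rf_le'`, `growth_lower`; take the sum of the two constants, with `rf_mono`. -/
theorem growth_bounds {n m : ℕ → ℕ} {K : ℕ} (hS : Spec C n m K) (hm : ∀ i, m i ≠ 0)
    (hnm : ∀ i, n i + 1 ≤ 2 ^ (m i)) (hn : ∀ r, ∃ i, r ≤ n i) (hn1 : ∀ i, 1 ≤ n i)
    (S : Finset (Gp C)) (hcl : Subgroup.closure (S : Set (Gp C)) = ⊤) :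
    ∃ E : ℕ, 0 < E ∧ (∀ i r, E * r ≤ n i → rfGrowth S r ≤ 4 * (2 ^ (m i)) ^ 3) ∧
      ∀ i, 2 ^ (m i) * (2 ^ (m i) * (2 ^ (m i) - 1)) ≤ rfGrowth S (E * n i) := by
  obtain ⟨E, hE, h⟩ := depth_ball hS hm hnm S
  obtain ⟨E', hE', h'⟩ := growth_lower hS hm hnm hn hn1 S hcl
  refine ⟨E + E', by omega, fun i r hr => ?_, fun i => ?_⟩
  · exact rf_le' (h i r (le_trans (Nat.mul_le_mul_right _ (by omega)) hr))
  · exact (h' i).trans (rf_mono hS hm hnm hn S (Nat.mul_le_mul_right _ (by omega)))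

end

end Q2

end Pool.Agent.Lib.MP_f3c5e4_al
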