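import Pool.Agent.Lib.MP_f3c5e4_al.Q2.Defs

/-! # Minimal polynomials of units -/

set_option autoImplicit false

namespace Pool.Agent.Lib.MP_f3c5e4_al

namespace Q2

open LaurentPolynomial Polynomial

noncomputable section

/-- PROOF. `ev` unfolds to `LaurentPolynomial.eval₂`; `LaurentPolynomial.eval₂_toLaurent`,
`Polynomial.aeval_def`. -/
theorem ev_toLaurent {F : Type} [Field F] [Algebra (ZMod 2) F] (a : Fˣ) (p : (ZMod 2)[X]) :
    ev a (toLaurent p) = aeval (a : F) p := by
  unfold ev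
  rw [LaurentPolynomial.eval₂_toLaurent, Polynomial.aeval_def]

/-- PROOF. `minpoly.natDegree_le` with `GaloisField.finrank`; `minpoly.ne_zero`;
`minpoly.coeff_zero_ne_zero`; `ev_toLaurent`, `minpoly.aeval`. -/
theorem min_facts {M : ℕ} (hM : M ≠ 0) (a : (GaloisField 2 M)ˣ) :
    (minpoly (ZMod 2) (a : GaloisField 2 M)).natDegree ≤ M ∧
      minpoly (ZMod 2) (a : GaloisField 2 M) ≠ 0 ∧
      (minpoly (ZMod 2) (a : GaloisField 2 M)).coeff 0 ≠ 0 ∧
      ev a (toLaurent (minpoly (ZMod 2) (a : GaloisField 2 M))) = 0 := by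
  have hi : IsIntegral (ZMod 2) (a : GaloisField 2 M) := Algebra.IsIntegral.isIntegral _
  refine ⟨?_, minpoly.ne_zero hi, minpoly.coeff_zero_ne_zero hi a.ne_zero, ?_⟩
  · have h := minpoly.natDegree_le (A := ZMod 2) (a : GaloisField 2 M)
    rwa [GaloisField.finrank 2 hM] at h
  · rw [ev_toLaurent, minpoly.aeval]

/-- PROOF. If some `c ∈ I` has `ev a c ≠ 0`: `c * T n = toLaurent p` for some `n, p`
(`LaurentPolynomial.exists_T_pow`), `aeval a p ≠ 0`, so the irreducible `minpoly` does not divide `p` and is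
coprime to it: `u * p + v * minpoly = 1` (`Irreducible.coprime_iff_not_dvd`, `minpoly.irreducible`,
`minpoly.dvd_iff`); apply `toLaurent`: `1 ∈ I ⊔ span`. (`Ideal.eq_top_iff_one`.) -/
theorem min_prim {F : Type} [Field F] [Finite F] [Algebra (ZMod 2) F] (a : Fˣ) (I : Ideal R) :
    I ⊔ Ideal.span {toLaurent (minpoly (ZMod 2) (a : F))} = ⊤ ∨ ∀ c ∈ I, ev a c = 0 := by
  by_cases hall : ∀ c ∈ I, ev a c = 0
  · exact Or.inr hall
  · left
    push Not at hall
    obtain ⟨c, hc, hne⟩ := hall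
    obtain ⟨n, p, hp⟩ := LaurentPolynomial.exists_T_pow c
    have : Module.Finite (ZMod 2) F := Module.Finite.of_finite
    have hi : IsIntegral (ZMod 2) (a : F) := Algebra.IsIntegral.isIntegral _
    have hpne : aeval (a : F) p ≠ 0 := by
      rw [← ev_toLaurent, hp, map_mul]
      refine mul_ne_zero hne ?_
      unfold ev
      rw [LaurentPolynomial.eval₂_T]
      exact Units.ne_zero _
    have hnd : ¬ minpoly (ZMod 2) (a : F) ∣ p := by
      rw [minpoly.dvd_iff]
      exact hpne
    have hcop : IsCoprime (minpoly (ZMod 2) (a : F)) p :=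
      (Irreducible.coprime_iff_not_dvd (minpoly.irreducible hi)).2 hnd
    obtain ⟨u, v, huv⟩ := hcop
    rw [Ideal.eq_top_iff_one]
    have h1 := congrArg (toLaurent (R := ZMod 2)) huv
    rw [map_add, map_mul, map_mul, map_one] at h1
    rw [← h1]
    refine Ideal.add_mem _ ?_ ?_
    · exact Ideal.mul_mem_left _ _ ((le_sup_right : _ ≤ I ⊔ _)
        (Ideal.subset_span (Set.mem_singleton _)))
    · refine Ideal.mul_mem_left _ _ ((le_sup_left : I ≤ _) ?_)
      rw [hp]
      exact Ideal.mul_mem_right _ _ hc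

end

end Q2

end Pool.Agent.Lib.MP_f3c5e4_al
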