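import Mathlib

/-! # Greedy selection of few test points -/

set_option autoImplicit false

namespace Pool.Agent.Lib.MP_f3c5e4_al

namespace Q2

/-- Averaging step. PROOF. Double counting: `∑ a ∈ P, #{h ∈ U | a ∈ bad h} = ∑ h ∈ U, (bad h).card`
(`Finset.sum_card_bipartiteAbove_eq_sum_card_bipartiteBelow` or `Finset.sum_comm`), so
`2 ^ s * ∑ a ∈ P, #{h ∈ U | a ∈ bad h} ≤ U.card * P.card`; hence some `a ∈ P` has
`2 ^ s * #{h ∈ U | a ∈ bad h} ≤ U.card` (`Finset.exists_le_of_sum_le` or by contradiction with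
`Finset.sum_lt_sum_of_nonempty`). -/
theorem select_step {X H : Type} [DecidableEq X] (P : Finset X) (hP : P.Nonempty)
    (bad : H → Finset X) (s : ℕ) (U : Finset H)
    (hU : ∀ h ∈ U, bad h ⊆ P ∧ 2 ^ s * (bad h).card ≤ P.card) :
    ∃ a ∈ P, 2 ^ s * (U.filter fun h => a ∈ bad h).card ≤ U.card := by
  by_contra hcon
  push Not at hcon
  have h1 : ∑ a ∈ P, (U.filter fun h => a ∈ bad h).card = ∑ h ∈ U, (bad h).card := by
    simp only [Finset.card_filter]
    rw [Finset.sum_comm]
    apply Finset.sum_congr rfl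
    intro h hh
    rw [← Finset.card_filter]
    congr 1
    ext a
    simp only [Finset.mem_filter]
    exact ⟨fun h => h.2, fun h' => ⟨(hU h hh).1 h', h'⟩⟩
  have h2 : P.card * U.card < ∑ a ∈ P, 2 ^ s * (U.filter fun h => a ∈ bad h).card := by
    rw [← smul_eq_mul, ← Finset.sum_const]
    exact Finset.sum_lt_sum_of_nonempty hP hcon
  rw [← Finset.mul_sum, h1, Finset.mul_sum] at h2
  have h3 : ∑ h ∈ U, 2 ^ s * (bad h).card ≤ U.card * P.card := by
    rw [← smul_eq_mul, ← Finset.sum_const]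
    exact Finset.sum_le_sum fun h hh => (hU h hh).2
  rw [mul_comm] at h3
  omega

/-- PROOF. Induction on `T`. For `T = 0` the set `U` is empty. For `T + 1` take `a` from `select_step` and
apply the induction hypothesis to `U.filter fun h => a ∈ bad h`, whose cardinality is `< 2 ^ (s * T)`;
`A := insert a A'`. -/
theorem select {X H : Type} [DecidableEq X] (P : Finset X) (hP : P.Nonempty)
    (bad : H → Finset X) (s : ℕ) :
    ∀ (T : ℕ) (U : Finset H), (∀ h ∈ U, bad h ⊆ P ∧ 2 ^ s * (bad h).card ≤ P.card) →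
      U.card < 2 ^ (s * T) →
      ∃ A : Finset X, A ⊆ P ∧ A.card ≤ T ∧ ∀ h ∈ U, ∃ a ∈ A, a ∉ bad h := by
  intro T
  induction T with
  | zero =>
    intro U _ hcard
    have h0 : U = ∅ := by
      rw [← Finset.card_eq_zero]
      simpa using hcard
    subst h0
    exact ⟨∅, by simp, by simp, by simp⟩
  | succ T ih =>
    intro U hU hcard
    obtain ⟨a, haP, ha⟩ := select_step P hP bad s U hU
    have h1 : (U.filter fun h => a ∈ bad h).card < 2 ^ (s * T) := by
      have h2 : 2 ^ s * (U.filter fun h => a ∈ bad h).card < 2 ^ s * 2 ^ (s * T) := by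
        refine lt_of_le_of_lt ha (hcard.trans_le (le_of_eq ?_))
        rw [← pow_add]
        ring_nf
      exact lt_of_mul_lt_mul_left h2 (Nat.zero_le _)
    obtain ⟨A, hA1, hA2, hA3⟩ := ih (U.filter fun h => a ∈ bad h)
      (fun h hh => hU h (Finset.mem_filter.1 hh).1) h1
    refine ⟨insert a A, ?_, ?_, ?_⟩
    · intro x hx
      rcases Finset.mem_insert.1 hx with rfl | hx
      · exact haP
      · exact hA1 hx
    · exact (Finset.card_insert_le _ _).trans (by omega)
    · intro h hh
      by_cases hab : a ∈ bad h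
      · obtain ⟨b, hb, hb'⟩ := hA3 h (Finset.mem_filter.2 ⟨hh, hab⟩)
        exact ⟨b, Finset.mem_insert_of_mem hb, hb'⟩
      · exact ⟨a, Finset.mem_insert_self _ _, hab⟩

end Q2

end Pool.Agent.Lib.MP_f3c5e4_al
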