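import Pool.Agent.Lib.MP_f3c5e4_al.Q2.Defs

/-! # Dependent choice, the number of relations -/

set_option autoImplicit false

namespace Pool.Agent.Lib.MP_f3c5e4_al

namespace Q2

open LaurentPolynomial Polynomial

noncomputable section

/-- Dependent choice along `ℕ`. PROOF. Define by strong recursion, or: let
`Q n f := ∀ l < n, P l f`. By induction build `F : ℕ → (ℕ → X)` with `Q n (F n)` and
`F (n + 1) = Function.update (F n) n x`; put `f l := F (l + 1) l`; then `F n l = f l` for `l < n`, and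
`P i f` follows from `P i (F (i + 1))` by `hloc`. -/
theorem exists_seq {X : Type} [Inhabited X] (P : ℕ → (ℕ → X) → Prop)
    (hloc : ∀ i f g, (∀ l ≤ i, f l = g l) → P i f → P i g)
    (hstep : ∀ i f, (∀ l < i, P l f) → ∃ x, P i (Function.update f i x)) :
    ∃ f, ∀ i, P i f := by
  classical
  -- one step
  have hs : ∀ (n : ℕ) (f : {f : ℕ → X // ∀ l < n, P l f}),
      ∃ x : X, ∀ l < n + 1, P l (Function.update f.1 n x) := by
    intro n f
    obtain ⟨x, hx⟩ := hstep n f.1 f.2
    refine ⟨x, ?_⟩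
    intro l hl
    rcases Nat.lt_succ_iff_lt_or_eq.1 hl with h | h
    · refine hloc l f.1 _ ?_ (f.2 l h)
      intro k hk
      rw [Function.update_of_ne (by omega)]
    · rw [h]; exact hx
  choose nx hnx using hs
  let F : (n : ℕ) → {f : ℕ → X // ∀ l < n, P l f} := fun n =>
    Nat.rec (motive := fun n => {f : ℕ → X // ∀ l < n, P l f})
      ⟨fun _ => default, fun l hl => absurd hl (Nat.not_lt_zero l)⟩
      (fun n f => ⟨Function.update f.1 n (nx n f), hnx n f⟩) n
  have hF : ∀ n, (F (n + 1)).1 = Function.update (F n).1 n (nx n (F n)) := fun n => rfl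
  have hst : ∀ n l, l < n → (F n).1 l = (F (l + 1)).1 l := by
    intro n l hl
    induction n with
    | zero => omega
    | succ n ih =>
      rcases Nat.lt_succ_iff_lt_or_eq.1 hl with h | h
      · rw [hF n, Function.update_of_ne (by omega), ih h]
      · rw [h]
  refine ⟨fun l => (F (l + 1)).1 l, ?_⟩
  intro i
  refine hloc i (F (i + 1)).1 _ ?_ ((F (i + 1)).2 i (Nat.lt_succ_self i))
  intro l hl
  exact hst (i + 1) l (by omega)

/-- PROOF. `kap l` is the 2-adic valuation of `l + 1`, so the sum is the valuation of `i !`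
(`padicValNat.mul`, `Nat.factorial_succ`, induction); `sub_one_mul_padicValNat_factorial` (with `p = 2`)
gives `≤ i`. -/
theorem sum_kap (i : ℕ) : ∑ l ∈ Finset.range i, kap l ≤ i := by
  have h1 : ∀ i : ℕ, ∑ l ∈ Finset.range i, kap l = padicValNat 2 (Nat.factorial i) := by
    intro i
    induction i with
    | zero => simp
    | succ i ih =>
      rw [Finset.sum_range_succ, ih, Nat.factorial_succ,
        padicValNat.mul (Nat.succ_ne_zero i) (Nat.factorial_ne_zero i), add_comm]
      rfl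
  rw [h1]
  have h2 := sub_one_mul_padicValNat_factorial (p := 2) i
  omega

/-- PROOF. `2 ^ kap i ∣ i + 1` (`pow_padicValNat_dvd`), so `2 ^ kap i ≤ i + 1` and
`kap i < 2 ^ kap i`. -/
theorem kap_le (i : ℕ) : kap i ≤ i := by
  have h1 : 2 ^ kap i ∣ i + 1 := pow_padicValNat_dvd
  have h2 : 2 ^ kap i ≤ i + 1 := Nat.le_of_dvd (Nat.succ_pos i) h1
  have h3 : kap i < 2 ^ kap i := Nat.lt_two_pow_self
  omega

/-- PROOF. `l := 2 ^ (d + l0) - 1`, `kap l = d + l0` (`padicValNat.prime_pow`). -/
theorem kap_unbdd (d l0 : ℕ) : ∃ l, l0 ≤ l ∧ d ≤ kap l := by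
  have h1 : d + l0 < 2 ^ (d + l0) := Nat.lt_two_pow_self
  refine ⟨2 ^ (d + l0) - 1, by omega, ?_⟩
  have h2 : 2 ^ (d + l0) - 1 + 1 = 2 ^ (d + l0) := by omega
  have h3 : kap (2 ^ (d + l0) - 1) = d + l0 := by
    show padicValNat 2 (2 ^ (d + l0) - 1 + 1) = d + l0
    rw [h2, padicValNat.prime_pow]
  omega

end

end Q2

end Pool.Agent.Lib.MP_f3c5e4_al
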