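import Pool.Agent.Lib.MP_f3c5e4_al.Q2.SeqA

/-! # The span of the relations -/

set_option autoImplicit false

namespace Pool.Agent.Lib.MP_f3c5e4_al

namespace Q2

open LaurentPolynomial Polynomial

noncomputable section

/-- PROOF. The spanning set is the image of a finset (`Finset.sigma (range i) (fun l => range (kap l))`) with
`∑ l ∈ range i, kap l ≤ i` elements; `finrank_span_le_card` / `finrank_span_finset_le_card`, and
`Module.natCard_eq_pow_finrank` (`Nat.card_zmod`). -/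
theorem card_W (Ψ : ℕ → (ZMod 2)[X]) (i : ℕ) : Finite (W Ψ i) ∧ Nat.card (W Ψ i) ≤ 2 ^ i := by
  classical
  let S : Finset R := ((Finset.range i).sigma (fun l => Finset.range (kap l))).image
    (fun x => toLaurent (Phi Ψ x.1 * X ^ x.2))
  have hS : W Ψ i = Submodule.span (ZMod 2) (S : Set R) := by
    unfold W
    congr 1
    ext r
    simp only [Set.mem_setOf_eq, S, Finset.coe_image, Set.mem_image, Finset.mem_coe,
      Finset.mem_sigma, Finset.mem_range]
    constructor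
    · rintro ⟨l, hl, k, hk, rfl⟩
      exact ⟨⟨l, k⟩, ⟨hl, hk⟩, rfl⟩
    · rintro ⟨⟨l, k⟩, ⟨hl, hk⟩, rfl⟩
      exact ⟨l, hl, k, hk, rfl⟩
  have hcard : S.card ≤ i := by
    refine Finset.card_image_le.trans ?_
    rw [Finset.card_sigma]
    simp only [Finset.card_range]
    exact sum_kap i
  rw [hS]
  haveI : Fact (Nat.Prime 2) := ⟨Nat.prime_two⟩
  haveI : Module.Finite (ZMod 2) (Submodule.span (ZMod 2) (S : Set R)) :=
    FiniteDimensional.span_finset (ZMod 2) S
  refine ⟨Module.finite_of_finite (ZMod 2), ?_⟩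
  rw [Module.natCard_eq_pow_finrank (K := ZMod 2), Nat.card_zmod]
  exact Nat.pow_le_pow_right (by norm_num) ((finrank_span_finset_le_card S).trans hcard)

/-- PROOF. `Submodule.span_induction`: `0`, sums (`Polynomial.natDegree_add_le`, `map_add`), scalar multiples
(a scalar in `ZMod 2` is `0` or `1`), generators (`Polynomial.natDegree_mul_le`, `natDegree_X_pow`). -/
theorem W_poly (Ψ : ℕ → (ZMod 2)[X]) (i D : ℕ) (hD : ∀ l < i, (Phi Ψ l).natDegree + kap l ≤ D) :
    ∀ r ∈ W Ψ i, ∃ w : (ZMod 2)[X], w.natDegree ≤ D ∧ toLaurent w = r := by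
  intro r hr
  unfold W at hr
  induction hr using Submodule.span_induction with
  | mem x hx =>
    obtain ⟨l, hl, k, hk, rfl⟩ := hx
    refine ⟨Phi Ψ l * X ^ k, ?_, rfl⟩
    refine natDegree_mul_le.trans ?_
    rw [natDegree_X_pow]
    have := hD l hl
    omega
  | zero => exact ⟨0, by simp, by simp⟩
  | add x y _ _ hx hy =>
    obtain ⟨w1, h1, rfl⟩ := hx
    obtain ⟨w2, h2, rfl⟩ := hy
    exact ⟨w1 + w2, (natDegree_add_le _ _).trans (max_le h1 h2), map_add _ _ _⟩
  | smul a x _ hx =>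
    obtain ⟨w, h1, rfl⟩ := hx
    have ha : a = 0 ∨ a = 1 := by
      revert a
      decide
    rcases ha with rfl | rfl
    · exact ⟨0, by simp, by simp⟩
    · exact ⟨w, h1, by simp⟩

/-- PROOF. `Phi Ψ l = Phi Ψ' l` for `l ≤ i` (`Finset.prod_congr`), so the spanning sets agree. -/
theorem W_congr (Ψ Ψ' : ℕ → (ZMod 2)[X]) (i : ℕ) (h : ∀ l < i, Ψ l = Ψ' l) :
    W Ψ (i + 1) = W Ψ' (i + 1) := by
  have hPhi : ∀ l < i + 1, Phi Ψ l = Phi Ψ' l := by
    intro l hl
    unfold Phi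
    refine Finset.prod_congr rfl fun x hx => h x ?_
    rw [Finset.mem_range] at hx
    omega
  unfold W
  congr 1
  ext r
  simp only [Set.mem_setOf_eq]
  constructor
  · rintro ⟨l, hl, k, hk, rfl⟩
    exact ⟨l, hl, k, hk, by rw [hPhi l hl]⟩
  · rintro ⟨l, hl, k, hk, rfl⟩
    exact ⟨l, hl, k, hk, by rw [hPhi l hl]⟩

/-- PROOF. Induction on `i`: `Finset.prod_range_succ`, `natDegree_mul_le`,
`4 * V * 2 ^ (i + i0) + 4 * V * 2 ^ (i + i0) = 4 * V * 2 ^ (i + 1 + i0)`. -/
theorem natDegree_Phi (Ψ : ℕ → (ZMod 2)[X]) (V i0 : ℕ) (i : ℕ)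
    (h : ∀ l < i, (Ψ l).natDegree ≤ 4 * V * 2 ^ (l + i0)) :
    (Phi Ψ i).natDegree ≤ 4 * V * 2 ^ (i + i0) := by
  induction i with
  | zero =>
    unfold Phi
    simp
  | succ i ih =>
    have h1 := ih fun l hl => h l (by omega)
    have h2 := h i (by omega)
    have h3 : Phi Ψ (i + 1) = Phi Ψ i * Ψ i := by
      unfold Phi
      rw [Finset.prod_range_succ]
    rw [h3]
    refine natDegree_mul_le.trans ?_
    have h4 : 4 * V * 2 ^ (i + 1 + i0) = 4 * V * 2 ^ (i + i0) + 4 * V * 2 ^ (i + i0) := by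
      rw [show i + 1 + i0 = i + i0 + 1 by ring, pow_succ]
      ring
    omega

end

end Q2

end Pool.Agent.Lib.MP_f3c5e4_al
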