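import Pool.Agent.Lib.MP_f3c5e4_al.Q2.SeqB
import Pool.Agent.Lib.MP_f3c5e4_al.Q2.GdA
import Pool.Agent.Lib.MP_f3c5e4_al.Q2.GdB

/-! # The sequence of level polynomials -/

set_option autoImplicit false

namespace Pool.Agent.Lib.MP_f3c5e4_al

namespace Q2

open LaurentPolynomial Polynomial

noncomputable section

/-- PROOF. `exists_seq` with `P i Ψ := Good (m (i + i0)) (2 ^ (i + i0)) (4 * V) (W Ψ (i + 1)) (Ψ i)`.
`hloc`: `W_congr`. `hstep`: for `f` with `P l f` for `l < i` we have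
`natDegree (Phi f l) ≤ 4 * V * 2 ^ (l + i0)` for `l ≤ i` (`natDegree_Phi`, `Good.deg`), so by `W_poly`,
`kap_le` all elements of `W f (i + 1)` are polynomials of degree at most
`D := (4 * V + 1) * 2 ^ (i + i0)`; `card_W` gives `Nat.card (W f (i+1)) ≤ 2 ^ (i + 1) ≤ 2 ^ (i + i0)`;
`num_level` (with `ι = i + i0`) and `exists_good` give `x` with
`Good _ _ _ (W f (i + 1)) x`; `W_congr` for `Function.update f i x`, `Function.update_self`. -/
theorem exists_Psi (m : ℕ → ℕ) (V i0 : ℕ) (h8 : ∀ ι, 8 * ι ≤ m ι) (hV : ∀ ι, m ι ≤ V * ι)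
    (hi : 1 ≤ i0) (h4 : (4 * V + 3) ^ 2 ≤ 2 ^ i0) :
    ∃ Ψ : ℕ → (ZMod 2)[X], ∀ i,
      Good (m (i + i0)) (2 ^ (i + i0)) (4 * V) (W Ψ (i + 1)) (Ψ i) := by
  have key := exists_seq (X := (ZMod 2)[X])
    (fun i Ψ => Good (m (i + i0)) (2 ^ (i + i0)) (4 * V) (W Ψ (i + 1)) (Ψ i)) ?_ ?_
  · exact key
  · intro i f g hfg hf
    have e1 : W f (i + 1) = W g (i + 1) := W_congr f g i (fun l hl => hfg l hl.le)
    have e2 : f i = g i := hfg i le_rfl
    simpa only [e1, e2] using hf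
  · intro i f hf
    have hι : 1 ≤ i + i0 := by omega
    have h8' := h8 (i + i0)
    have hV' := hV (i + i0)
    have hM : m (i + i0) ≠ 0 := by omega
    obtain ⟨hfin, hcard⟩ := card_W f (i + 1)
    have hc : Nat.card (W f (i + 1)) ≤ 2 ^ (i + i0) :=
      hcard.trans (Nat.pow_le_pow_right (by norm_num) (by omega))
    have h4' : (4 * V + 3) ^ 2 ≤ 2 ^ (i + i0) :=
      h4.trans (Nat.pow_le_pow_right (by norm_num) (by omega))
    obtain ⟨n1, n2, n3⟩ := num_level (m (i + i0)) V (i + i0) (Nat.card (W f (i + 1))) hι h8' hV'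
      hc h4'
    have hD : ∀ r ∈ W f (i + 1), ∃ w : (ZMod 2)[X],
        w.natDegree ≤ (4 * V + 1) * 2 ^ (i + i0) ∧ toLaurent w = r := by
      apply W_poly
      intro l hl
      have a1 : (Phi f l).natDegree ≤ 4 * V * 2 ^ (l + i0) :=
        natDegree_Phi f V i0 l (fun k hk => (hf k (by omega)).deg)
      have a2 : 2 ^ (l + i0) ≤ 2 ^ (i + i0) := Nat.pow_le_pow_right (by norm_num) (by omega)
      have a3 : kap l ≤ 2 ^ (i + i0) := by
        have b1 := kap_le l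
        have b2 : i + i0 < 2 ^ (i + i0) := Nat.lt_two_pow_self
        omega
      have a4 : 4 * V * 2 ^ (l + i0) ≤ 4 * V * 2 ^ (i + i0) := Nat.mul_le_mul_left _ a2
      calc (Phi f l).natDegree + kap l ≤ 4 * V * 2 ^ (i + i0) + 2 ^ (i + i0) := by omega
        _ = (4 * V + 1) * 2 ^ (i + i0) := by ring
    have := hfin
    obtain ⟨x, hx⟩ := exists_good (m (i + i0)) (2 ^ (i + i0)) ((4 * V + 1) * 2 ^ (i + i0)) (i + i0)
      ((2 * 2 ^ (i + i0) + 1) / (i + i0) + 1) (4 * V) hM (W f (i + 1)) hD n1 n2 n3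
    refine ⟨x, ?_⟩
    have e : W (Function.update f i x) (i + 1) = W f (i + 1) :=
      W_congr _ _ i (fun l hl => Function.update_of_ne hl.ne _ _)
    simpa only [e, Function.update_self] using hx

end

end Q2

end Pool.Agent.Lib.MP_f3c5e4_al
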