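import Mathlib

/-! # A lower bound for Euler's function -/

set_option autoImplicit false

namespace Pool.Agent.Lib.MP_f3c5e4_al

namespace Q2

private theorem tot_prime_pow {p k : ℕ} (hp : p.Prime) (hk : 0 < k) (ho : Odd (p ^ k)) :
    p ^ k ≤ Nat.totient (p ^ k) ^ 2 := by
  obtain ⟨j, rfl⟩ : ∃ j, k = j + 1 := ⟨k - 1, by omega⟩
  have hpo : Odd p := (Nat.odd_pow_iff (by omega)).1 ho
  have h3 : 3 ≤ p := by
    have h2 := hp.two_le
    rcases hpo with ⟨m, hm⟩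
    omega
  rw [Nat.totient_prime_pow_succ hp, mul_pow, pow_succ]
  have h1 : p ^ j ≤ (p ^ j) ^ 2 := by
    rw [sq]
    exact Nat.le_mul_of_pos_left _ (pow_pos hp.pos j)
  have h2 : p ≤ (p - 1) ^ 2 := by
    obtain ⟨r, rfl⟩ : ∃ r, p = r + 3 := ⟨p - 3, by omega⟩
    have h4 : r + 3 - 1 = r + 2 := by omega
    rw [h4]
    nlinarith
  exact Nat.mul_le_mul h1 h2

/-- PROOF. `φ (p ^ k) = p ^ (k - 1) * (p - 1)`, and for `p ≥ 3`, `k ≥ 1`:
`(p ^ (k - 1) * (p - 1)) ^ 2 = p ^ (2 * (k - 1)) * (p - 1) ^ 2 ≥ p ^ (k - 1) * p` since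
`(p - 1) ^ 2 ≥ p`. Then multiplicativity: `Nat.recOnPosPrimePosCoprime` (or `Nat.recOnMul`,
`induction_on_primes`): for coprime `a, b`, `φ (a b) ^ 2 = φ a ^ 2 * φ b ^ 2 ≥ a b`, factors of an odd number
are odd. -/
theorem totient_sq (n : ℕ) (hn : Odd n) : n ≤ Nat.totient n ^ 2 := by
  induction n using Nat.recOnPosPrimePosCoprime with
  | prime_pow p k hp hk => exact tot_prime_pow hp hk hn
  | zero => exact Nat.zero_le _
  | one => simp
  | coprime a b ha hb hab iha ihb =>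
    rw [Nat.odd_mul] at hn
    rw [Nat.totient_mul hab, mul_pow]
    exact Nat.mul_le_mul (iha hn.1) (ihb hn.2)

end Q2

end Pool.Agent.Lib.MP_f3c5e4_al
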